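import Pool.Agent.Hhelper67.Johnson.Comm

/-!
Explicit automorphisms of the surface group.
-/

namespace Pool.Agent.Hhelper67.Johnson

open scoped commutatorElement

section Quad

variable {n : ℕ} {G : Type*}

/-- a function on the letters given by its values on the first two handles -/
def gf (A0 B0 A1 B1 : G) (R : Fin n → Bool → G) : Gen (n + 2) → G := fun x =>
  (Fin.cons (if x.2 then B0 else A0)
    (Fin.cons (if x.2 then B1 else A1) (fun i => R i x.2) : Fin (n + 1) → G) : Fin (n + 2) → G) x.1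

@[simp] lemma gf_a0 (A0 B0 A1 B1 : G) (R : Fin n → Bool → G) :
    gf A0 B0 A1 B1 R (0, false) = A0 := by simp [gf]
@[simp] lemma gf_b0 (A0 B0 A1 B1 : G) (R : Fin n → Bool → G) :
    gf A0 B0 A1 B1 R (0, true) = B0 := by simp [gf]
@[simp] lemma gf_a1 (A0 B0 A1 B1 : G) (R : Fin n → Bool → G) :
    gf A0 B0 A1 B1 R (Fin.succ 0, false) = A1 := by simp only [gf, Fin.cons_succ, Fin.cons_zero]; simp
@[simp] lemma gf_b1 (A0 B0 A1 B1 : G) (R : Fin n → Bool → G) :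
    gf A0 B0 A1 B1 R (Fin.succ 0, true) = B1 := by simp only [gf, Fin.cons_succ, Fin.cons_zero]; simp
@[simp] lemma gf_r (A0 B0 A1 B1 : G) (R : Fin n → Bool → G) (i : Fin n) (b : Bool) :
    gf A0 B0 A1 B1 R (i.succ.succ, b) = R i b := by simp [gf]

variable [Group G]

lemma lift_relator' (f : Gen (n + 2) → G) :
    FreeGroup.lift f (relator (n + 2)) = ⁅f (0, false), f (0, true)⁆ *
      (⁅f (Fin.succ 0, false), f (Fin.succ 0, true)⁆ *
        (List.ofFn fun i : Fin n => ⁅f (i.succ.succ, false), f (i.succ.succ, true)⁆).prod) := by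
  unfold relator
  rw [map_list_prod, List.ofFn_succ, List.ofFn_succ, List.map_cons, List.map_cons,
    List.prod_cons, List.prod_cons, List.map_ofFn]
  simp only [map_commutatorElement, FreeGroup.lift_apply_of, Function.comp_def]

/-- letters of the surface group -/
def sa (i : Fin (n + 2)) : SurfaceGroup (n + 2) := PresentedGroup.of (i, false)
/-- letters of the surface group -/
def sb (i : Fin (n + 2)) : SurfaceGroup (n + 2) := PresentedGroup.of (i, true)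

/-- the remaining letters -/
def rest (n : ℕ) : Fin n → Bool → SurfaceGroup (n + 2) := fun i b =>
  PresentedGroup.of (i.succ.succ, b)

lemma relator_eq : ⁅(sa 0 : SurfaceGroup (n + 2)), sb 0⁆ *
      (⁅(sa (Fin.succ 0) : SurfaceGroup (n + 2)), sb (Fin.succ 0)⁆ *
        (List.ofFn fun i : Fin n => ⁅rest n i false, rest n i true⁆).prod) = 1 := by
  have h1 : (PresentedGroup.mk {relator (n + 2)}) (relator (n + 2)) = 1 :=
    PresentedGroup.one_of_mem (Set.mem_singleton _)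
  have h2 : (PresentedGroup.mk {relator (n + 2)}) =
      FreeGroup.lift (fun x => (PresentedGroup.of x : SurfaceGroup (n + 2))) := by
    ext x
    simp [PresentedGroup.of]
  rw [h2, lift_relator'] at h1
  exact h1

/-- The images of the letters satisfy the relation of the surface group. -/
def FullRel (A0 B0 A1 B1 : G) (R : Fin n → Bool → G) : Prop :=
  ⁅A0, B0⁆ * (⁅A1, B1⁆ * (List.ofFn fun i : Fin n => ⁅R i false, R i true⁆).prod) = 1

lemma gf_rel (A0 B0 A1 B1 : G) (R : Fin n → Bool → G) (h : FullRel A0 B0 A1 B1 R) :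
    ∀ r ∈ ({relator (n + 2)} : Set (FreeGroup (Gen (n + 2)))),
      FreeGroup.lift (gf A0 B0 A1 B1 R) r = 1 := by
  intro r hr
  rw [Set.mem_singleton_iff.mp hr, lift_relator']
  simp only [gf_a0, gf_b0, gf_a1, gf_b1, gf_r]
  exact h

/-- The homomorphism from the surface group with given values on the letters. -/
def homOf (A0 B0 A1 B1 : G) (R : Fin n → Bool → G) (h : FullRel A0 B0 A1 B1 R) :
    SurfaceGroup (n + 2) →* G :=
  PresentedGroup.toGroup (gf_rel A0 B0 A1 B1 R h)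

section
variable (A0 B0 A1 B1 : G) (R : Fin n → Bool → G) (h : FullRel A0 B0 A1 B1 R)

lemma homOf_of (x : Gen (n + 2)) :
    homOf A0 B0 A1 B1 R h (PresentedGroup.of x : PresentedGroup {relator (n + 2)}) =
      gf A0 B0 A1 B1 R x :=
  PresentedGroup.toGroup.of (gf_rel A0 B0 A1 B1 R h)

@[simp] lemma homOf_a0 : homOf A0 B0 A1 B1 R h (sa 0) = A0 :=
  (homOf_of A0 B0 A1 B1 R h (0, false)).trans (gf_a0 _ _ _ _ _)
@[simp] lemma homOf_b0 : homOf A0 B0 A1 B1 R h (sb 0) = B0 :=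
  (homOf_of A0 B0 A1 B1 R h (0, true)).trans (gf_b0 _ _ _ _ _)
@[simp] lemma homOf_a1 : homOf A0 B0 A1 B1 R h (sa (Fin.succ 0)) = A1 :=
  (homOf_of A0 B0 A1 B1 R h (Fin.succ 0, false)).trans (gf_a1 _ _ _ _ _)
@[simp] lemma homOf_b1 : homOf A0 B0 A1 B1 R h (sb (Fin.succ 0)) = B1 :=
  (homOf_of A0 B0 A1 B1 R h (Fin.succ 0, true)).trans (gf_b1 _ _ _ _ _)
@[simp] lemma homOf_r (i : Fin n) (b : Bool) : homOf A0 B0 A1 B1 R h (rest n i b) = R i b :=
  (homOf_of A0 B0 A1 B1 R h (i.succ.succ, b)).trans (gf_r _ _ _ _ _ _ _)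
end

lemma hom_ext {φ ψ : SurfaceGroup (n + 2) →* G} (h1 : φ (sa 0) = ψ (sa 0))
    (h2 : φ (sb 0) = ψ (sb 0)) (h3 : φ (sa (Fin.succ 0)) = ψ (sa (Fin.succ 0)))
    (h4 : φ (sb (Fin.succ 0)) = ψ (sb (Fin.succ 0)))
    (h5 : ∀ i b, φ (rest n i b) = ψ (rest n i b)) : φ = ψ := by
  apply PresentedGroup.ext
  rintro ⟨i, b⟩
  refine Fin.cases ?_ (fun i => ?_) i
  · cases b
    · exact h1
    · exact h2
  · refine Fin.cases ?_ (fun i => ?_) i
    · cases b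
      · exact h3
      · exact h4
    · exact h5 i b

/-- `[A0, B0][A1, B1] = [a_0, b_0][a_1, b_1]`. -/
def PairRel (A0 B0 A1 B1 : SurfaceGroup (n + 2)) : Prop :=
  ⁅A0, B0⁆ * ⁅A1, B1⁆ = ⁅(sa 0 : SurfaceGroup (n + 2)), sb 0⁆ *
    ⁅(sa (Fin.succ 0) : SurfaceGroup (n + 2)), sb (Fin.succ 0)⁆

lemma endo_rel (A0 B0 A1 B1 : SurfaceGroup (n + 2)) (h : PairRel A0 B0 A1 B1) :
    FullRel A0 B0 A1 B1 (rest n) := by
  unfold FullRel
  rw [← mul_assoc, h, mul_assoc, relator_eq]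

/-- The endomorphism of the surface group changing the letters of the first two handles. -/
def endo (A0 B0 A1 B1 : SurfaceGroup (n + 2)) (h : PairRel A0 B0 A1 B1) :
    SurfaceGroup (n + 2) →* SurfaceGroup (n + 2) :=
  homOf A0 B0 A1 B1 (rest n) (endo_rel A0 B0 A1 B1 h)

end Quad

section Autos

variable {n : ℕ}

/-- `a_0` -/
abbrev a0 (n : ℕ) : SurfaceGroup (n + 2) := sa 0
/-- `b_0` -/
abbrev b0 (n : ℕ) : SurfaceGroup (n + 2) := sb 0
/-- `a_1` -/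
abbrev a1 (n : ℕ) : SurfaceGroup (n + 2) := sa (Fin.succ 0)
/-- `b_1` -/
abbrev b1 (n : ℕ) : SurfaceGroup (n + 2) := sb (Fin.succ 0)

section
variable (A0 B0 A1 B1 : SurfaceGroup (n + 2)) (h : PairRel A0 B0 A1 B1)
@[simp] lemma endo_a0 : endo A0 B0 A1 B1 h (a0 n) = A0 := homOf_a0 _ _ _ _ _ _
@[simp] lemma endo_b0 : endo A0 B0 A1 B1 h (b0 n) = B0 := homOf_b0 _ _ _ _ _ _
@[simp] lemma endo_a1 : endo A0 B0 A1 B1 h (a1 n) = A1 := homOf_a1 _ _ _ _ _ _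
@[simp] lemma endo_b1 : endo A0 B0 A1 B1 h (b1 n) = B1 := homOf_b1 _ _ _ _ _ _
@[simp] lemma endo_r (i : Fin n) (b : Bool) : endo A0 B0 A1 B1 h (rest n i b) = rest n i b :=
  homOf_r _ _ _ _ _ _ _ _
end

lemma uE_rel (n : ℕ) (k : ℤ) : PairRel (a0 n * (b0 n) ^ k) (b0 n) (a1 n) (b1 n) := by
  change ⁅a0 n * (b0 n) ^ k, b0 n⁆ * ⁅a1 n, b1 n⁆ = ⁅a0 n, b0 n⁆ * ⁅a1 n, b1 n⁆
  simp only [commutatorElement_def]
  group

lemma vE_rel (n : ℕ) (k : ℤ) : PairRel (a0 n) (b0 n * (a0 n) ^ k) (a1 n) (b1 n) := by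
  change ⁅a0 n, b0 n * (a0 n) ^ k⁆ * ⁅a1 n, b1 n⁆ = ⁅a0 n, b0 n⁆ * ⁅a1 n, b1 n⁆
  simp only [commutatorElement_def]
  group

/-- `a_0 ↦ a_0 b_0^k` -/
def uE (n : ℕ) (k : ℤ) : SurfaceGroup (n + 2) →* SurfaceGroup (n + 2) :=
  endo (a0 n * (b0 n) ^ k) (b0 n) (a1 n) (b1 n) (uE_rel n k)

/-- `b_0 ↦ b_0 a_0^k` -/
def vE (n : ℕ) (k : ℤ) : SurfaceGroup (n + 2) →* SurfaceGroup (n + 2) :=
  endo (a0 n) (b0 n * (a0 n) ^ k) (a1 n) (b1 n) (vE_rel n k)

lemma uE_comp (n : ℕ) (k : ℤ) : (uE n (-k)).comp (uE n k) = MonoidHom.id _ := by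
  apply hom_ext <;> simp only [uE, MonoidHom.comp_apply, MonoidHom.id_apply, endo_a0, endo_b0,
    endo_a1, endo_b1, endo_r, map_mul, map_zpow, implies_true]
  group

lemma uE_comp' (n : ℕ) (k : ℤ) : (uE n k).comp (uE n (-k)) = MonoidHom.id _ := by
  apply hom_ext <;> simp only [uE, MonoidHom.comp_apply, MonoidHom.id_apply, endo_a0, endo_b0,
    endo_a1, endo_b1, endo_r, map_mul, map_zpow, implies_true]
  group

lemma vE_comp (n : ℕ) (k : ℤ) : (vE n (-k)).comp (vE n k) = MonoidHom.id _ := by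
  apply hom_ext <;> simp only [vE, MonoidHom.comp_apply, MonoidHom.id_apply, endo_a0, endo_b0,
    endo_a1, endo_b1, endo_r, map_mul, map_zpow, implies_true]
  group

lemma vE_comp' (n : ℕ) (k : ℤ) : (vE n k).comp (vE n (-k)) = MonoidHom.id _ := by
  apply hom_ext <;> simp only [vE, MonoidHom.comp_apply, MonoidHom.id_apply, endo_a0, endo_b0,
    endo_a1, endo_b1, endo_r, map_mul, map_zpow, implies_true]
  group

/-- the automorphism `a_0 ↦ a_0 b_0^k` -/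
def uA (n : ℕ) (k : ℤ) : MulAut (SurfaceGroup (n + 2)) :=
  MonoidHom.toMulEquiv (uE n k) (uE n (-k)) (uE_comp n k) (uE_comp' n k)

/-- the automorphism `b_0 ↦ b_0 a_0^k` -/
def vA (n : ℕ) (k : ℤ) : MulAut (SurfaceGroup (n + 2)) :=
  MonoidHom.toMulEquiv (vE n k) (vE n (-k)) (vE_comp n k) (vE_comp' n k)

/-- the element `b_0⁻¹ a_1 b_1 a_1⁻¹` -/
def eE (n : ℕ) : SurfaceGroup (n + 2) := (b0 n)⁻¹ * a1 n * b1 n * (a1 n)⁻¹

lemma tE_rel (n : ℕ) :
    PairRel (a0 n * eE n) ((eE n)⁻¹ * b0 n * eE n) ((eE n)⁻¹ * a1 n) (b1 n) := by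
  change ⁅a0 n * eE n, (eE n)⁻¹ * b0 n * eE n⁆ * ⁅(eE n)⁻¹ * a1 n, b1 n⁆ =
    ⁅a0 n, b0 n⁆ * ⁅a1 n, b1 n⁆
  simp only [commutatorElement_def, eE]
  group

lemma tE'_rel (n : ℕ) :
    PairRel (a0 n * (eE n)⁻¹) (eE n * b0 n * (eE n)⁻¹) (eE n * a1 n) (b1 n) := by
  change ⁅a0 n * (eE n)⁻¹, eE n * b0 n * (eE n)⁻¹⁆ * ⁅eE n * a1 n, b1 n⁆ =
    ⁅a0 n, b0 n⁆ * ⁅a1 n, b1 n⁆
  simp only [commutatorElement_def, eE]
  group

/-- auxiliary endomorphism -/
def tE (n : ℕ) : SurfaceGroup (n + 2) →* SurfaceGroup (n + 2) :=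
  endo (a0 n * eE n) ((eE n)⁻¹ * b0 n * eE n) ((eE n)⁻¹ * a1 n) (b1 n) (tE_rel n)

/-- auxiliary endomorphism -/
def tE' (n : ℕ) : SurfaceGroup (n + 2) →* SurfaceGroup (n + 2) :=
  endo (a0 n * (eE n)⁻¹) (eE n * b0 n * (eE n)⁻¹) (eE n * a1 n) (b1 n) (tE'_rel n)

lemma tE_e : tE n (eE n) = eE n := by
  simp only [tE, eE, map_mul, map_inv, endo_b0, endo_a1, endo_b1]
  group

lemma tE'_e : tE' n (eE n) = eE n := by
  simp only [tE', eE, map_mul, map_inv, endo_b0, endo_a1, endo_b1]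
  group

lemma tE_comp (n : ℕ) : (tE' n).comp (tE n) = MonoidHom.id _ := by
  apply hom_ext
  · have : tE n (a0 n) = a0 n * eE n := endo_a0 _ _ _ _ _
    rw [MonoidHom.comp_apply, this, map_mul, tE'_e, tE', endo_a0]
    group
    rfl
  · have : tE n (b0 n) = (eE n)⁻¹ * b0 n * eE n := endo_b0 _ _ _ _ _
    rw [MonoidHom.comp_apply, this, map_mul, map_mul, map_inv, tE'_e, tE', endo_b0]
    group
    rfl
  · have : tE n (a1 n) = (eE n)⁻¹ * a1 n := endo_a1 _ _ _ _ _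
    rw [MonoidHom.comp_apply, this, map_mul, map_inv, tE'_e, tE', endo_a1]
    group
    rfl
  · have : tE n (b1 n) = b1 n := endo_b1 _ _ _ _ _
    rw [MonoidHom.comp_apply, this, tE', endo_b1]
    rfl
  · intro i b
    have : tE n (rest n i b) = rest n i b := endo_r _ _ _ _ _ _ _
    rw [MonoidHom.comp_apply, this, tE', endo_r]
    rfl

lemma tE'_comp (n : ℕ) : (tE n).comp (tE' n) = MonoidHom.id _ := by
  apply hom_ext
  · have : tE' n (a0 n) = a0 n * (eE n)⁻¹ := endo_a0 _ _ _ _ _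
    rw [MonoidHom.comp_apply, this, map_mul, map_inv, tE_e, tE, endo_a0]
    group
    rfl
  · have : tE' n (b0 n) = (eE n) * b0 n * (eE n)⁻¹ := endo_b0 _ _ _ _ _
    rw [MonoidHom.comp_apply, this, map_mul, map_mul, map_inv, tE_e, tE, endo_b0]
    group
    rfl
  · have : tE' n (a1 n) = (eE n) * a1 n := endo_a1 _ _ _ _ _
    rw [MonoidHom.comp_apply, this, map_mul, tE_e, tE, endo_a1]
    group
    rfl
  · have : tE' n (b1 n) = b1 n := endo_b1 _ _ _ _ _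
    rw [MonoidHom.comp_apply, this, tE, endo_b1]
    rfl
  · intro i b
    have : tE' n (rest n i b) = rest n i b := endo_r _ _ _ _ _ _ _
    rw [MonoidHom.comp_apply, this, tE, endo_r]
    rfl

/-- the automorphism `τ` -/
def tA (n : ℕ) : MulAut (SurfaceGroup (n + 2)) :=
  MonoidHom.toMulEquiv (tE n) (tE' n) (tE_comp n) (tE'_comp n)

/-- the commutator of `a_0` and `b_0` -/
def cE (n : ℕ) : SurfaceGroup (n + 2) := ⁅a0 n, b0 n⁆

lemma cEnd_rel (n : ℕ) (k : ℤ) :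
    PairRel ((cE n) ^ k * a0 n * ((cE n) ^ k)⁻¹) ((cE n) ^ k * b0 n * ((cE n) ^ k)⁻¹)
      (a1 n) (b1 n) := by
  change ⁅(cE n) ^ k * a0 n * ((cE n) ^ k)⁻¹, (cE n) ^ k * b0 n * ((cE n) ^ k)⁻¹⁆ * ⁅a1 n, b1 n⁆ =
      ⁅a0 n, b0 n⁆ * ⁅a1 n, b1 n⁆
  have : ⁅(cE n) ^ k * a0 n * ((cE n) ^ k)⁻¹, (cE n) ^ k * b0 n * ((cE n) ^ k)⁻¹⁆ =
      (cE n) ^ k * ⁅a0 n, b0 n⁆ * ((cE n) ^ k)⁻¹ := by
    simp only [commutatorElement_def]
    group
  rw [this]
  congr 1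
  change (cE n) ^ k * cE n * ((cE n) ^ k)⁻¹ = cE n
  generalize cE n = c
  group

/-- conjugation of `a_0`, `b_0` by a power of their commutator -/
def cEnd (n : ℕ) (k : ℤ) : SurfaceGroup (n + 2) →* SurfaceGroup (n + 2) :=
  endo ((cE n) ^ k * a0 n * ((cE n) ^ k)⁻¹) ((cE n) ^ k * b0 n * ((cE n) ^ k)⁻¹) (a1 n) (b1 n)
    (cEnd_rel n k)

lemma cEnd_c (k : ℤ) : cEnd n k (cE n) = cE n := by
  have h1 : cEnd n k (a0 n) = (cE n) ^ k * a0 n * ((cE n) ^ k)⁻¹ := endo_a0 _ _ _ _ _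
  have h2 : cEnd n k (b0 n) = (cE n) ^ k * b0 n * ((cE n) ^ k)⁻¹ := endo_b0 _ _ _ _ _
  have h3 : cEnd n k (cE n) = ⁅cEnd n k (a0 n), cEnd n k (b0 n)⁆ := by
    rw [cE, map_commutatorElement]
  rw [h3, h1, h2]
  have : ⁅(cE n) ^ k * a0 n * ((cE n) ^ k)⁻¹, (cE n) ^ k * b0 n * ((cE n) ^ k)⁻¹⁆ =
      (cE n) ^ k * ⁅a0 n, b0 n⁆ * ((cE n) ^ k)⁻¹ := by
    simp only [commutatorElement_def]
    group
  rw [this]
  change (cE n) ^ k * cE n * ((cE n) ^ k)⁻¹ = cE n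
  generalize cE n = c
  group

lemma cEnd_comp (k : ℤ) : (cEnd n (-k)).comp (cEnd n k) = MonoidHom.id _ := by
  apply hom_ext
  · have h1 : cEnd n k (a0 n) = (cE n) ^ k * a0 n * ((cE n) ^ k)⁻¹ := endo_a0 _ _ _ _ _
    have h2 : cEnd n (-k) (a0 n) = (cE n) ^ (-k) * a0 n * ((cE n) ^ (-k))⁻¹ := endo_a0 _ _ _ _ _
    rw [MonoidHom.comp_apply, h1, map_mul, map_mul, map_inv, map_zpow, cEnd_c, h2]
    generalize cE n = c
    group
    rfl
  · have h1 : cEnd n k (b0 n) = (cE n) ^ k * b0 n * ((cE n) ^ k)⁻¹ := endo_b0 _ _ _ _ _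
    have h2 : cEnd n (-k) (b0 n) = (cE n) ^ (-k) * b0 n * ((cE n) ^ (-k))⁻¹ := endo_b0 _ _ _ _ _
    rw [MonoidHom.comp_apply, h1, map_mul, map_mul, map_inv, map_zpow, cEnd_c, h2]
    generalize cE n = c
    group
    rfl
  · have h1 : ∀ k, cEnd n k (a1 n) = a1 n := fun k => endo_a1 _ _ _ _ _
    rw [MonoidHom.comp_apply, h1, h1]
    rfl
  · have h1 : ∀ k, cEnd n k (b1 n) = b1 n := fun k => endo_b1 _ _ _ _ _
    rw [MonoidHom.comp_apply, h1, h1]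
    rfl
  · intro i b
    have h1 : ∀ k, cEnd n k (rest n i b) = rest n i b := fun k => endo_r _ _ _ _ _ _ _
    rw [MonoidHom.comp_apply, h1, h1]
    rfl

lemma cEnd_comp' (n : ℕ) : (cEnd n 1).comp (cEnd n (-1)) = MonoidHom.id _ := by
  have := cEnd_comp (n := n) (-1)
  rwa [neg_neg] at this

/-- the twist about the curve `[a_0, b_0]` -/
def cA (n : ℕ) : MulAut (SurfaceGroup (n + 2)) :=
  MonoidHom.toMulEquiv (cEnd n 1) (cEnd n (-1)) (cEnd_comp 1) (cEnd_comp' n)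

/-- the conjugate `x y x⁻¹` -/
def conjBy {G : Type} [Group G] (x y : G) : G := x * y * x⁻¹

/-- the element `f = τ T_c τ⁻¹` of the Torelli group -/
def fA (n : ℕ) : MulAut (SurfaceGroup (n + 2)) := conjBy (tA n) (cA n)

end Autos

end Pool.Agent.Hhelper67.Johnson
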