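import Pool.Agent.Hhelper67.Johnson.FreeWords

/-!
An upper bound for the number of closed words in a group with a free family of generators.
-/

namespace Pool.Agent.Hhelper67.Johnson

open scoped ENNReal

section Schur

variable {Q A : Type*} [Group Q] [Fintype A]

lemma schur_pointwise [Nonempty A] (β c : A → ℝ) (hβ : ∀ a, 0 < β a) {Λ : ℝ}
    (h : ∑ a, (β a)⁻¹ ≤ Λ) : (∑ a, c a) ^ 2 ≤ Λ * ∑ a, β a * c a ^ 2 := by
  have h1 := Finset.sq_sum_div_le_sum_sq_div Finset.univ c (g := fun a => (β a)⁻¹)
    (fun a _ => inv_pos.mpr (hβ a))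
  have h2 : 0 < ∑ a, (β a)⁻¹ :=
    Finset.sum_pos (fun a _ => inv_pos.mpr (hβ a)) Finset.univ_nonempty
  rw [div_le_iff₀ h2] at h1
  have h3 : ∑ a, c a ^ 2 / (β a)⁻¹ = ∑ a, β a * c a ^ 2 := by
    apply Finset.sum_congr rfl
    intro a _
    rw [div_inv_eq_mul, mul_comm]
  rw [h3] at h1
  refine h1.trans ?_
  rw [mul_comm]
  apply mul_le_mul_of_nonneg_right h
  exact Finset.sum_nonneg fun a _ => mul_nonneg (hβ a).le (sq_nonneg _)

lemma schur [Nonempty A] (v : A → Q) (β : A → Q → ℝ) (hβ : ∀ a g, 0 < β a g) {Λ : ℝ}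
    (hΛ : 0 ≤ Λ)
    (h1 : ∀ g, ∑ a, (β a g)⁻¹ ≤ Λ) (h2 : ∀ h, ∑ a, β a (h * (v a)⁻¹) ≤ Λ) (c : Q → ℝ) :
    ∑' g, ENNReal.ofReal ((∑ a, c (g * v a)) ^ 2) ≤
      ENNReal.ofReal (Λ ^ 2) * ∑' g, ENNReal.ofReal (c g ^ 2) := by
  calc ∑' g, ENNReal.ofReal ((∑ a, c (g * v a)) ^ 2)
      ≤ ∑' g, ENNReal.ofReal Λ * ∑ a, ENNReal.ofReal (β a g * c (g * v a) ^ 2) := by
        apply ENNReal.tsum_le_tsum
        intro g
        rw [← ENNReal.ofReal_sum_of_nonneg
          (fun a _ => mul_nonneg (hβ a g).le (sq_nonneg _)), ← ENNReal.ofReal_mul hΛ]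
        apply ENNReal.ofReal_le_ofReal
        exact schur_pointwise (fun a => β a g) (fun a => c (g * v a)) (fun a => hβ a g) (h1 g)
    _ = ENNReal.ofReal Λ * ∑' g, ∑' a, ENNReal.ofReal (β a g * c (g * v a) ^ 2) := by
        rw [ENNReal.tsum_mul_left]
        simp only [tsum_fintype]
    _ = ENNReal.ofReal Λ * ∑' a, ∑' g, ENNReal.ofReal (β a g * c (g * v a) ^ 2) := by
        rw [ENNReal.tsum_comm]
    _ = ENNReal.ofReal Λ * ∑' a, ∑' h, ENNReal.ofReal (β a (h * (v a)⁻¹) * c h ^ 2) := by
        congr 1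
        apply tsum_congr
        intro a
        rw [← (Equiv.mulRight (v a)⁻¹).tsum_eq]
        apply tsum_congr
        intro h
        simp
    _ = ENNReal.ofReal Λ * ∑' h, ∑' a, ENNReal.ofReal (β a (h * (v a)⁻¹) * c h ^ 2) := by
        rw [ENNReal.tsum_comm]
    _ ≤ ENNReal.ofReal Λ * ∑' h, ENNReal.ofReal (Λ * c h ^ 2) := by
        gcongr with h
        rw [tsum_fintype, ← ENNReal.ofReal_sum_of_nonneg
          (fun a _ => mul_nonneg (hβ a _).le (sq_nonneg _)), ← Finset.sum_mul]
        apply ENNReal.ofReal_le_ofReal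
        exact mul_le_mul_of_nonneg_right (h2 h) (sq_nonneg _)
    _ = ENNReal.ofReal (Λ ^ 2) * ∑' g, ENNReal.ofReal (c g ^ 2) := by
        simp only [ENNReal.ofReal_mul hΛ]
        rw [ENNReal.tsum_mul_left, ← mul_assoc, ← ENNReal.ofReal_mul hΛ, sq]

/-- the number of words `a_1 … a_r` with `g * v a_1 * ⋯ * v a_r = 1` -/
noncomputable def cw [DecidableEq Q] (v : A → Q) : ℕ → Q → ℝ
  | 0 => fun g => if g = 1 then 1 else 0
  | r + 1 => fun g => ∑ a, cw v r (g * v a)

lemma cw_nonneg [DecidableEq Q] (v : A → Q) (r : ℕ) (g : Q) : 0 ≤ cw v r g := by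
  induction r generalizing g with
  | zero =>
    simp only [cw]
    split_ifs <;> norm_num
  | succ r ih => exact Finset.sum_nonneg fun a _ => ih _

lemma cw_le [DecidableEq Q] [Nonempty A] (v : A → Q) (β : A → Q → ℝ) (hβ : ∀ a g, 0 < β a g) {Λ : ℝ}
    (hΛ : 0 ≤ Λ)
    (h1 : ∀ g, ∑ a, (β a g)⁻¹ ≤ Λ) (h2 : ∀ h, ∑ a, β a (h * (v a)⁻¹) ≤ Λ) (r : ℕ) :
    cw v r 1 ≤ Λ ^ r := by
  have key : ∑' g, ENNReal.ofReal (cw v r g ^ 2) ≤ ENNReal.ofReal ((Λ ^ r) ^ 2) := by
    induction r with
    | zero =>
      have : ∀ g : Q, ENNReal.ofReal (cw v 0 g ^ 2) = if g = 1 then 1 else 0 := by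
        intro g
        simp only [cw]
        split_ifs <;> simp
      simp only [this]
      rw [tsum_ite_eq]
      simp
    | succ r ih =>
      calc ∑' g, ENNReal.ofReal (cw v (r + 1) g ^ 2)
          = ∑' g, ENNReal.ofReal ((∑ a, cw v r (g * v a)) ^ 2) := rfl
        _ ≤ ENNReal.ofReal (Λ ^ 2) * ∑' g, ENNReal.ofReal (cw v r g ^ 2) :=
            schur v β hβ hΛ h1 h2 _
        _ ≤ ENNReal.ofReal (Λ ^ 2) * ENNReal.ofReal ((Λ ^ r) ^ 2) := by gcongr
        _ = ENNReal.ofReal ((Λ ^ (r + 1)) ^ 2) := by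
            rw [← ENNReal.ofReal_mul (by positivity)]
            congr 1
            ring
  have h3 : ENNReal.ofReal (cw v r 1 ^ 2) ≤ ENNReal.ofReal ((Λ ^ r) ^ 2) :=
    (ENNReal.le_tsum 1).trans key
  rw [ENNReal.ofReal_le_ofReal_iff (by positivity)] at h3
  exact le_of_sq_le_sq h3 (by positivity)

end Schur

section Count

variable {G Q A : Type*} [Group G] [Group Q] [Fintype A] [DecidableEq G] [DecidableEq Q]

/-- the products of `r` letters -/
def prods (u : A → G) : ℕ → Finset G
  | 0 => {1}
  | r + 1 => (Finset.univ ×ˢ prods u r).image fun p => u p.1 * p.2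

lemma card_prods_le (π : G →* Q) (u : A → G) (r : ℕ) (h : Q) :
    (((prods u r).filter fun x => h * π x = 1).card : ℝ) ≤ cw (fun a => π (u a)) r h := by
  induction r generalizing h with
  | zero =>
    simp only [prods, cw]
    split_ifs with hh
    · have := Finset.card_filter_le ({1} : Finset G) (fun x => h * π x = 1)
      rw [Finset.card_singleton] at this
      exact_mod_cast this
    · rw [Finset.filter_singleton, if_neg (by simpa using hh)]
      simp
  | succ r ih =>
    have hsub : ((prods u (r + 1)).filter fun x => h * π x = 1) ⊆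
        Finset.univ.biUnion fun a => ((prods u r).filter fun x => (h * π (u a)) * π x = 1).image
          fun x => u a * x := by
      intro x hx
      rw [Finset.mem_filter] at hx
      obtain ⟨hx1, hx2⟩ := hx
      simp only [prods, Finset.mem_image, Finset.mem_product, Finset.mem_univ, true_and,
        Prod.exists] at hx1
      obtain ⟨a, y, hy, rfl⟩ := hx1
      rw [Finset.mem_biUnion]
      refine ⟨a, Finset.mem_univ _, Finset.mem_image.mpr ⟨y, ?_, rfl⟩⟩
      rw [Finset.mem_filter]
      refine ⟨hy, ?_⟩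
      rw [← hx2, map_mul, mul_assoc]
    calc (((prods u (r + 1)).filter fun x => h * π x = 1).card : ℝ)
        ≤ ((Finset.univ.biUnion fun a => ((prods u r).filter
            fun x => (h * π (u a)) * π x = 1).image fun x => u a * x).card : ℝ) := by
          exact_mod_cast Finset.card_le_card hsub
      _ ≤ ∑ a, ((((prods u r).filter fun x => (h * π (u a)) * π x = 1).image
            fun x => u a * x).card : ℝ) := by
          exact_mod_cast Finset.card_biUnion_le
      _ ≤ ∑ a, (((prods u r).filter fun x => (h * π (u a)) * π x = 1).card : ℝ) := by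
          apply Finset.sum_le_sum
          intro a _
          exact_mod_cast Finset.card_image_le
      _ ≤ ∑ a, cw (fun a => π (u a)) r (h * π (u a)) := Finset.sum_le_sum fun a _ => ih _
      _ = cw (fun a => π (u a)) (r + 1) h := rfl

end Count

section LastLetter

variable {ι : Type*} [DecidableEq ι]

lemma last_letter (w : FreeGroup ι) (x : ι × Bool) :
    (w * FreeGroup.mk [x]).toWord.getLast? = some x ∨ w.toWord.getLast? = some (opp x) := by
  by_cases h : w.toWord.getLast? = some (opp x)
  · exact Or.inr h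
  · left
    have hr : FreeGroup.IsReduced (w.toWord ++ [x]) := by
      rw [isReduced_append]
      refine ⟨FreeGroup.isReduced_toWord, FreeGroup.IsReduced.singleton, ?_⟩
      intro y hy z hz e
      simp only [List.head?_cons, Option.mem_def, Option.some.injEq] at hz
      subst hz
      apply h
      rw [Option.mem_def] at hy
      rw [hy, e, opp_opp]
    have e1 : w * FreeGroup.mk [x] = FreeGroup.mk (w.toWord ++ [x]) := by
      rw [← FreeGroup.mul_mk, FreeGroup.mk_toWord]
    rw [e1, FreeGroup.toWord_mk, hr.reduce_eq]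
    exact List.getLast?_concat

variable {Q : Type*} [Group Q]

/-- For a free family in a group there is a last letter function. -/
lemma exists_last (φ : FreeGroup ι →* Q) (hφ : Function.Injective φ) :
    ∃ ℓ : Q → Option (ι × Bool), ∀ (g : Q) (x : ι × Bool),
      ℓ (g * φ (FreeGroup.mk [x])) = some x ∨ ℓ g = some (opp x) := by
  classical
  have hw : ∀ g : Q, ∃ w : FreeGroup ι,
      (Quotient.out (QuotientGroup.mk (s := φ.range) g)) * φ w = g := by
    intro g
    obtain ⟨⟨h, ⟨w, hw⟩⟩, he⟩ := QuotientGroup.mk_out_eq_mul φ.range g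
    refine ⟨w⁻¹, ?_⟩
    change (QuotientGroup.mk (s := φ.range) g).out * φ w⁻¹ = g
    rw [he, map_inv, hw, mul_inv_cancel_right]
  choose w hw using hw
  refine ⟨fun g => (w g).toWord.getLast?, fun g x => ?_⟩
  have e : w (g * φ (FreeGroup.mk [x])) = w g * FreeGroup.mk [x] := by
    apply hφ
    have h1 := hw (g * φ (FreeGroup.mk [x]))
    have h2 : (QuotientGroup.mk (s := φ.range) (g * φ (FreeGroup.mk [x]))) =
        QuotientGroup.mk (s := φ.range) g := by
      rw [eq_comm, QuotientGroup.eq]
      exact ⟨FreeGroup.mk [x], by group⟩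
    rw [h2] at h1
    rw [map_mul]
    have h3 := hw g
    have h4 : φ (w (g * φ (FreeGroup.mk [x]))) =
        (Quotient.out (QuotientGroup.mk (s := φ.range) g))⁻¹ * (g * φ (FreeGroup.mk [x])) := by
      rw [eq_inv_mul_iff_mul_eq]
      exact h1
    rw [h4, ← mul_assoc]
    congr 1
    rw [inv_mul_eq_iff_eq_mul]
    exact h3.symm
  simp only
  rw [e]
  exact last_letter (w g) x

end LastLetter

section Bound

variable {ι B Q : Type*} [Fintype ι] [DecidableEq ι] [Nonempty ι] [Fintype B] [Group Q]
  [DecidableEq Q]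

/-- A free family of `M` elements together with `n` further letters: the number of closed words
of length `r` is at most `(2 √(2M) + n)^r`. -/
lemma cw_bound (φ : FreeGroup ι →* Q) (hφ : Function.Injective φ) (z : B → Q) (r : ℕ) :
    cw (Sum.elim (fun x : ι × Bool => φ (FreeGroup.mk [x])) z) r 1 ≤
      (2 * Real.sqrt (2 * Fintype.card ι) + Fintype.card B) ^ r := by
  obtain ⟨ℓ, hℓ⟩ := exists_last φ hφ
  set q : ℝ := Real.sqrt (2 * Fintype.card ι) with hq
  have hM : 0 < (Fintype.card ι : ℝ) := by exact_mod_cast Fintype.card_pos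
  have hq0 : 0 < q := Real.sqrt_pos.mpr (by positivity)
  have hq1 : 1 ≤ q := by
    rw [hq, Real.one_le_sqrt]
    have : (1 : ℝ) ≤ Fintype.card ι := by exact_mod_cast Fintype.card_pos (α := ι)
    linarith
  have hqq : q * q = 2 * Fintype.card ι := Real.mul_self_sqrt (by positivity)
  set β : ((ι × Bool) ⊕ B) → Q → ℝ :=
    Sum.elim (fun x g => if ℓ g = some (opp x) then q⁻¹ else q) (fun _ _ => 1) with hβ
  have hcard : (Fintype.card (ι × Bool) : ℝ) = q * q := by
    rw [hqq]
    simp
    ring
  -- a sum with at most one exceptional term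
  have hsum : ∀ (f : ι × Bool → ℝ) (y : Option (ι × Bool)), (∀ x, f x ≤ q) →
      (∀ x, y ≠ some x → f x ≤ q⁻¹) → ∑ x, f x ≤ 2 * q := by
    intro f y hf1 hf2
    calc ∑ x, f x ≤ ∑ x : ι × Bool, (q⁻¹ + if y = some x then q else 0) := by
          apply Finset.sum_le_sum
          intro x _
          split_ifs with h
          · have := hf1 x
            have : 0 < q⁻¹ := inv_pos.mpr hq0
            linarith
          · simpa using hf2 x h
      _ = q * q * q⁻¹ + ∑ x : ι × Bool, (if y = some x then q else 0) := by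
          rw [Finset.sum_add_distrib, Finset.sum_const, Finset.card_univ, nsmul_eq_mul, hcard]
      _ ≤ q + q := by
          rw [mul_assoc, mul_inv_cancel₀ hq0.ne', mul_one]
          gcongr
          rcases y with _ | y
          · simp [hq0.le]
          · simp
      _ = 2 * q := by ring
  have hinv : q⁻¹ ≤ q := by
    rw [inv_le_iff_one_le_mul₀ hq0]
    nlinarith
  apply cw_le (β := β)
  · rintro (x | b) g
    · simp only [hβ, Sum.elim_inl]
      split_ifs
      · exact inv_pos.mpr hq0
      · exact hq0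
    · simp [hβ]
  · positivity
  · intro g
    rw [Fintype.sum_sum_type]
    simp only [hβ, Sum.elim_inl, Sum.elim_inr, inv_one, Finset.sum_const, Finset.card_univ,
      nsmul_eq_mul, mul_one]
    gcongr
    apply hsum _ ((ℓ g).map opp)
    · intro x
      split_ifs
      · rw [inv_inv]
      · exact hinv
    · intro x hx
      rw [if_neg]
      intro h
      apply hx
      rw [h, Option.map_some, opp_opp]
  · intro h
    rw [Fintype.sum_sum_type]
    simp only [hβ, Sum.elim_inl, Sum.elim_inr, Finset.sum_const, Finset.card_univ,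
      nsmul_eq_mul, mul_one]
    gcongr
    apply hsum _ (ℓ h)
    · intro x
      split_ifs
      · exact hinv
      · exact le_rfl
    · intro x hx
      have := hℓ (h * (φ (FreeGroup.mk [x]))⁻¹) x
      rw [inv_mul_cancel_right] at this
      rw [if_pos]
      exact this.resolve_left hx

end Bound

end Pool.Agent.Hhelper67.Johnson
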