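import Pool.Agent.Hhelper67.Johnson.Defs
import Pool.Agent.Hhelper67.Johnson.Spectral

/-!
Counting in balls of a finitely generated group.
-/

namespace Pool.Agent.Hhelper67.Johnson

section Balls

variable {G : Type} [Group G]

lemma ball_mul {S : Finset G} {r r' : ℕ} {x y : G} (hx : x ∈ ball S r) (hy : y ∈ ball S r') :
    x * y ∈ ball S (r + r') := by
  obtain ⟨l, hl, hs, rfl⟩ := hx
  obtain ⟨l', hl', hs', rfl⟩ := hy
  refine ⟨l ++ l', by rw [List.length_append]; omega, ?_, by simp⟩
  intro s h
  rcases List.mem_append.mp h with h | h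
  · exact hs s h
  · exact hs' s h

lemma ball_inv {S : Finset G} {r : ℕ} {x : G} (hx : x ∈ ball S r) : x⁻¹ ∈ ball S r := by
  obtain ⟨l, hl, hs, rfl⟩ := hx
  refine ⟨(l.map (·⁻¹)).reverse, by simpa using hl, ?_, (List.prod_inv_reverse l).symm⟩
  intro s h
  rw [List.mem_reverse, List.mem_map] at h
  obtain ⟨t, ht, rfl⟩ := h
  rw [inv_inv]
  exact (hs t ht).symm

lemma ball_mono {S : Finset G} {r r' : ℕ} (h : r ≤ r') : ball S r ⊆ ball S r' := by
  rintro x ⟨l, hl, hs, rfl⟩
  exact ⟨l, hl.trans h, hs, rfl⟩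

lemma one_mem_ball (S : Finset G) (r : ℕ) : (1 : G) ∈ ball S r :=
  ⟨[], by simp, by simp, rfl⟩

variable {A : Type*} [Fintype A] [DecidableEq G]

lemma one_mem_prods (u : A → G) (h1 : ∃ a, u a = 1) (r : ℕ) : 1 ∈ prods u r := by
  induction r with
  | zero => simp [prods]
  | succ r ih =>
    obtain ⟨a, ha⟩ := h1
    simp only [prods, Finset.mem_image, Finset.mem_product, Finset.mem_univ, true_and, Prod.exists]
    exact ⟨a, 1, ih, by simp [ha]⟩

lemma ball_subset_prods (S : Finset G) (u : A → G) (h1 : ∃ a, u a = 1)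
    (hu : ∀ s ∈ S, (∃ a, u a = s) ∧ ∃ a, u a = s⁻¹) (r : ℕ) :
    ball S r ⊆ (prods u r : Set G) := by
  induction r with
  | zero =>
    rintro x ⟨l, hl, -, rfl⟩
    rw [Nat.le_zero, List.length_eq_zero_iff] at hl
    rw [hl]
    simp [prods]
  | succ r ih =>
    rintro x ⟨l, hl, hs, rfl⟩
    rcases l with _ | ⟨s, l⟩
    · exact one_mem_prods u h1 _
    · have h2 : l.prod ∈ (prods u r : Set G) := ih ⟨l, by simpa using hl,
        fun t ht => hs t (List.mem_cons_of_mem _ ht), rfl⟩
      have h3 : ∃ a, u a = s := by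
        rcases hs s List.mem_cons_self with h | h
        · exact (hu s h).1
        · have := (hu _ h).2
          rwa [inv_inv] at this
      obtain ⟨a, ha⟩ := h3
      simp only [prods, Finset.coe_image, Set.mem_image, Finset.mem_coe, Finset.mem_product,
        Finset.mem_univ, true_and, Prod.exists]
      exact ⟨a, l.prod, h2, by rw [ha, List.prod_cons]⟩

lemma card_prods (u : A → G) (r : ℕ) : (prods u r).card ≤ (Fintype.card A) ^ r := by
  induction r with
  | zero => simp [prods]
  | succ r ih =>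
    calc (prods u (r + 1)).card ≤ (Finset.univ ×ˢ prods u r : Finset (A × G)).card :=
          Finset.card_image_le
      _ = Fintype.card A * (prods u r).card := by rw [Finset.card_product, Finset.card_univ]
      _ ≤ Fintype.card A * (Fintype.card A) ^ r := Nat.mul_le_mul_left _ ih
      _ = (Fintype.card A) ^ (r + 1) := by ring

/-- the standard alphabet of a finite set -/
def alph (S : Finset G) : Option (S × Bool) → G
  | none => 1
  | some (s, true) => s.1
  | some (s, false) => s.1⁻¹

lemma ball_finite (S : Finset G) (r : ℕ) : (ball S r).Finite :=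
  (Finset.finite_toSet (prods (alph S) r)).subset
    (ball_subset_prods S (alph S) ⟨none, rfl⟩
      (fun s hs => ⟨⟨some (⟨s, hs⟩, true), rfl⟩, ⟨some (⟨s, hs⟩, false), rfl⟩⟩) r)

lemma ncard_ball_le (S : Finset G) (r : ℕ) : (ball S r).ncard ≤ (2 * S.card + 1) ^ r := by
  have h := ball_subset_prods S (alph S) ⟨none, rfl⟩
      (fun s hs => ⟨⟨some (⟨s, hs⟩, true), rfl⟩, ⟨some (⟨s, hs⟩, false), rfl⟩⟩) r
  calc (ball S r).ncard ≤ (prods (alph S) r : Set G).ncard :=
        Set.ncard_le_ncard h (Finset.finite_toSet _)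
    _ = (prods (alph S) r).card := Set.ncard_coe_finset _
    _ ≤ (Fintype.card (Option (S × Bool))) ^ r := card_prods _ _
    _ = (2 * S.card + 1) ^ r := by
        congr 1
        simp [mul_comm]

lemma ncard_ball_pos (S : Finset G) (r : ℕ) : 0 < (ball S r).ncard :=
  (Set.ncard_pos (ball_finite S r)).mpr ⟨1, one_mem_ball S r⟩

lemma ncard_inter_pos (S : Finset G) (K : Subgroup G) (r : ℕ) :
    0 < (ball S r ∩ (K : Set G)).ncard :=
  (Set.ncard_pos ((ball_finite S r).inter_of_left _)).mpr ⟨1, one_mem_ball S r, K.one_mem⟩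

/-- a free family in `S` -/
lemma ncard_ball_ge {ι : Type*} [Fintype ι] [DecidableEq ι] (S : Finset G)
    (ρ : FreeGroup ι →* G) (hρ : Function.Injective ρ) (hS : ∀ i, ρ (FreeGroup.of i) ∈ S) (r : ℕ) :
    (Fintype.card ι) ^ r ≤ (ball S r).ncard := by
  let W : (Fin r → ι) → List (ι × Bool) := fun f => List.ofFn fun i => (f i, true)
  have hred : ∀ f, FreeGroup.IsReduced (W f) := by
    intro f
    unfold FreeGroup.IsReduced
    apply List.Pairwise.isChain
    rw [List.pairwise_iff_forall_sublist]
    intro a b hab hab'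
    have key : ∀ c ∈ W f, c.2 = true := by
      intro c hc
      simp only [W, List.mem_ofFn', Set.mem_range] at hc
      obtain ⟨i, rfl⟩ := hc
      rfl
    rw [key a (hab.subset (by simp)), key b (hab.subset (by simp))]
  have hinj : Function.Injective fun f : Fin r → ι => ρ (FreeGroup.mk (W f)) := by
    intro f f' e
    have e1 := mk_inj_of_reduced (hred f) (hred f') (hρ e)
    have e2 := List.ofFn_injective e1
    funext i
    have := congrFun e2 i
    exact congrArg Prod.fst this
  have hmem : ∀ f, ρ (FreeGroup.mk (W f)) ∈ ball S r := by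
    intro f
    refine ⟨List.ofFn fun i => ρ (FreeGroup.of (f i)), by simp, ?_, ?_⟩
    · intro s hs
      rw [List.mem_ofFn'] at hs
      obtain ⟨i, rfl⟩ := hs
      exact Or.inl (hS _)
    · have : FreeGroup.mk (W f) = (List.ofFn fun i => FreeGroup.of (f i)).prod := by
        have h2 : ∀ l : List ι, FreeGroup.mk (l.map fun i => (i, true)) =
            (l.map FreeGroup.of).prod := by
          intro l
          induction l with
          | nil => rfl
          | cons a l ih =>
            rw [List.map_cons, List.map_cons, List.prod_cons, ← ih]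
            rfl
        have h3 := h2 (List.ofFn f)
        rw [List.map_ofFn, List.map_ofFn] at h3
        exact h3
      rw [this, map_list_prod, List.map_ofFn]
      rfl
  calc (Fintype.card ι) ^ r = (Finset.univ.image fun f : Fin r → ι =>
        ρ (FreeGroup.mk (W f))).card := by
        rw [Finset.card_image_of_injective _ hinj]
        simp
    _ = (Finset.univ.image fun f : Fin r → ι => ρ (FreeGroup.mk (W f)) : Set G).ncard := by
        rw [Set.ncard_coe_finset]
    _ ≤ (ball S r).ncard := by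
        apply Set.ncard_le_ncard _ (ball_finite S r)
        intro x hx
        simp only [Finset.coe_image, Finset.coe_univ, Set.image_univ, Set.mem_range] at hx
        obtain ⟨f, rfl⟩ := hx
        exact hmem f

lemma mk_mem_ball {ι : Type*} (S : Finset G) (ρ : FreeGroup ι →* G) {L : ℕ}
    (hS : ∀ i, ρ (FreeGroup.of i) ∈ ball S L) (w : List (ι × Bool)) :
    ρ (FreeGroup.mk w) ∈ ball S (w.length * L) := by
  induction w with
  | nil =>
    rw [← FreeGroup.one_eq_mk, map_one]
    exact one_mem_ball _ _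
  | cons a w ih =>
    have h1 : FreeGroup.mk (a :: w) = FreeGroup.mk [a] * FreeGroup.mk w := rfl
    rw [h1, map_mul]
    have h2 : ρ (FreeGroup.mk [a]) ∈ ball S L := by
      obtain ⟨i, b⟩ := a
      cases b
      · have : FreeGroup.mk [(i, false)] = (FreeGroup.of i)⁻¹ := rfl
        rw [this, map_inv]
        exact ball_inv (hS i)
      · exact hS i
    have h3 := ball_mul h2 ih
    rw [List.length_cons, Nat.succ_mul, add_comm]
    exact h3

/-- lower bound for the number of elements of a subgroup in the ball -/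
lemma inter_growth {ι : Type*} [DecidableEq ι] (S : Finset G) (ρ : FreeGroup ι →* G)
    (hρ : Function.Injective ρ) {L : ℕ} (hL : 0 < L) (hS : ∀ i, ρ (FreeGroup.of i) ∈ ball S L)
    (K : Subgroup G) {δ : ℝ} (hδ : 0 ≤ δ) (hK : Good (K.comap ρ) δ) :
    ∃ C : ℝ, ∀ r : ℕ, δ / L * r - C ≤ Real.log ((ball S r ∩ (K : Set G)).ncard : ℝ) := by
  obtain ⟨s, hs, hV⟩ := hK.growth
  refine ⟨s * δ, fun r => ?_⟩
  obtain ⟨V, hV1, hV2, hV3⟩ := hV (r / (s * L))
  have h1 : ((V.image ρ : Finset G) : Set G) ⊆ ball S r ∩ (K : Set G) := by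
    intro x hx
    rw [Finset.mem_coe, Finset.mem_image] at hx
    obtain ⟨y, hy, rfl⟩ := hx
    obtain ⟨hy1, w, hw, rfl⟩ := hV1 y hy
    refine ⟨ball_mono ?_ (mk_mem_ball S ρ hS w), hy1⟩
    rw [hw, mul_assoc]
    exact Nat.div_mul_le_self r (s * L)
  have h2 : V.card ≤ (ball S r ∩ (K : Set G)).ncard := by
    rw [← Finset.card_image_of_injective V hρ, ← Set.ncard_coe_finset]
    exact Set.ncard_le_ncard h1 ((ball_finite S r).inter_of_left _)
  have h3 : Real.log V.card ≤ Real.log ((ball S r ∩ (K : Set G)).ncard : ℝ) := by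
    apply Real.log_le_log
    · exact_mod_cast Finset.card_pos.mpr hV2
    · exact_mod_cast h2
  refine le_trans ?_ (hV3.trans h3)
  have hs' : (0 : ℝ) < s := by exact_mod_cast hs
  have hL' : (0 : ℝ) < L := by exact_mod_cast hL
  have h4 : (r : ℝ) / (s * L) - 1 ≤ ((r / (s * L) : ℕ) : ℝ) := by
    have := Nat.lt_div_mul_add (a := r) (b := s * L) (by positivity)
    have h5 : (r : ℝ) < ((r / (s * L) : ℕ) : ℝ) * (s * L) + s * L := by exact_mod_cast this
    rw [sub_le_iff_le_add, div_le_iff₀ (by positivity)]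
    nlinarith
  calc δ / L * r - s * δ = ((r : ℝ) / (s * L) - 1) * (s * δ) := by
        field_simp
    _ ≤ ((r / (s * L) : ℕ) : ℝ) * (s * δ) := by
        apply mul_le_mul_of_nonneg_right h4
        positivity

end Balls

section Density

variable {G : Type} [Group G] [DecidableEq G]

lemma logRatio_le_one (S : Finset G) (K : Subgroup G) (r : ℕ) :
    logRatio S (K : Set G) r ≤ 1 := by
  unfold logRatio
  apply div_le_one_of_le₀
  · apply Real.log_le_log
    · exact_mod_cast ncard_inter_pos S K r
    · exact_mod_cast Set.ncard_le_ncard Set.inter_subset_left (ball_finite S r)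
  · apply Real.log_nonneg
    exact_mod_cast ncard_ball_pos S r

lemma logRatio_nonneg (S : Finset G) (K : Subgroup G) (r : ℕ) :
    0 ≤ logRatio S (K : Set G) r := by
  unfold logRatio
  apply div_nonneg
  · apply Real.log_nonneg
    exact_mod_cast ncard_inter_pos S K r
  · apply Real.log_nonneg
    exact_mod_cast ncard_ball_pos S r

lemma le_lower (S : Finset G) (K : Subgroup G) {c₁ c₂ c₃ : ℝ} (h1 : 0 < c₁) (h3 : 0 < c₃)
    (hK : ∀ r : ℕ, c₁ * r - c₂ ≤ Real.log ((ball S r ∩ (K : Set G)).ncard : ℝ))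
    (hB : ∀ r : ℕ, Real.log ((ball S r).ncard : ℝ) ≤ c₃ * r) :
    c₁ / c₃ ≤ lowerLogDensity S (K : Set G) := by
  apply le_of_forall_lt
  intro c hc
  obtain ⟨c', hc', hc''⟩ := exists_between hc
  refine lt_of_lt_of_le hc' ?_
  unfold lowerLogDensity
  apply Filter.le_liminf_of_le
  · refine Filter.IsBoundedUnder.isCoboundedUnder_ge ⟨1, ?_⟩
    exact Filter.eventually_map.mpr (Filter.Eventually.of_forall fun r => logRatio_le_one S K r)
  · rw [lt_div_iff₀ h3] at hc''
    obtain ⟨R, hR⟩ := exists_nat_gt (max (c₂ / (c₁ - c' * c₃)) (c₂ / c₁))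
    filter_upwards [Filter.eventually_ge_atTop (max R 1)] with r hr
    have hr1 : (1 : ℝ) ≤ r := by exact_mod_cast (le_max_right R 1).trans hr
    have hrR : (R : ℝ) ≤ r := by exact_mod_cast (le_max_left R 1).trans hr
    have hd : 0 < c₁ - c' * c₃ := by linarith
    have e1 : c₂ < (c₁ - c' * c₃) * r := by
      have := (le_max_left (c₂ / (c₁ - c' * c₃)) (c₂ / c₁)).trans_lt (hR.trans_le hrR)
      rw [div_lt_iff₀ hd] at this
      linarith
    have e2 : c₂ < c₁ * r := by
      have := (le_max_right (c₂ / (c₁ - c' * c₃)) (c₂ / c₁)).trans_lt (hR.trans_le hrR)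
      rw [div_lt_iff₀ h1] at this
      linarith
    have e3 : 0 < Real.log ((ball S r ∩ (K : Set G)).ncard : ℝ) := by
      have := hK r
      linarith
    have e4 : Real.log ((ball S r ∩ (K : Set G)).ncard : ℝ) ≤ Real.log ((ball S r).ncard : ℝ) := by
      apply Real.log_le_log
      · exact_mod_cast ncard_inter_pos S K r
      · exact_mod_cast Set.ncard_le_ncard Set.inter_subset_left (ball_finite S r)
    unfold logRatio
    rw [le_div_iff₀ (e3.trans_le e4)]
    rcases le_or_gt c' 0 with hc0 | hc0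
    · have : c' * Real.log ((ball S r).ncard : ℝ) ≤ 0 :=
        mul_nonpos_of_nonpos_of_nonneg hc0 (e3.trans_le e4).le
      linarith
    · calc c' * Real.log ((ball S r).ncard : ℝ) ≤ c' * (c₃ * r) :=
            mul_le_mul_of_nonneg_left (hB r) hc0.le
        _ ≤ c₁ * r - c₂ := by nlinarith
        _ ≤ _ := hK r

lemma upper_le (S : Finset G) (K : Subgroup G) {c₄ c₅ : ℝ} (h5 : 0 < c₅)
    (hK : ∀ r : ℕ, Real.log ((ball S r ∩ (K : Set G)).ncard : ℝ) ≤ c₄ * r)
    (hB : ∀ r : ℕ, c₅ * r ≤ Real.log ((ball S r).ncard : ℝ)) :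
    upperLogDensity S (K : Set G) ≤ c₄ / c₅ := by
  unfold upperLogDensity
  apply Filter.limsup_le_of_le
  · refine Filter.IsBoundedUnder.isCoboundedUnder_le ⟨0, ?_⟩
    exact Filter.eventually_map.mpr (Filter.Eventually.of_forall fun r => logRatio_nonneg S K r)
  · filter_upwards [Filter.eventually_ge_atTop 1] with r hr
    have hr1 : (1 : ℝ) ≤ r := by exact_mod_cast hr
    have e1 : 0 < c₅ * r := by positivity
    unfold logRatio
    have e2 := hB r
    rw [div_le_iff₀ (e1.trans_le e2)]
    have h0 : 0 ≤ c₄ := by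
      have h6 : 0 ≤ Real.log ((ball S 1 ∩ (K : Set G)).ncard : ℝ) := by
        apply Real.log_nonneg
        exact_mod_cast ncard_inter_pos S K 1
      have := hK 1
      simp only [Nat.cast_one, mul_one] at this
      linarith
    calc Real.log ((ball S r ∩ (K : Set G)).ncard : ℝ) ≤ c₄ * r := hK r
      _ = c₄ / c₅ * (c₅ * r) := by field_simp
      _ ≤ c₄ / c₅ * Real.log ((ball S r).ncard : ℝ) :=
          mul_le_mul_of_nonneg_left e2 (div_nonneg h0 h5.le)

end Density

end Pool.Agent.Hhelper67.Johnson
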