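import Mathlib

/-!
Reduced words in a free group and the growth of the terms of a descending series
with commuting successive quotients.
-/

namespace Pool.Agent.Hhelper67.Johnson

open FreeGroup (IsReduced invRev invRev_length)
open scoped commutatorElement

section Words

variable {ι : Type*}

/-- The inverse letter. -/
def opp (x : ι × Bool) : ι × Bool := (x.1, !x.2)

@[simp] lemma opp_opp (x : ι × Bool) : opp (opp x) = x := by simp [opp]

lemma opp_inj {x y : ι × Bool} (h : opp x = opp y) : x = y := by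
  rw [← opp_opp x, h, opp_opp]

lemma ok_iff {a b : ι × Bool} : (a.1 = b.1 → a.2 = b.2) ↔ b ≠ opp a := by
  rcases a with ⟨a, a'⟩
  rcases b with ⟨b, b'⟩
  simp only [opp, ne_eq, Prod.mk.injEq, not_and]
  constructor
  · intro h e1 e2
    have := h e1.symm
    rw [this] at e2
    cases b' <;> simp at e2
  · intro h e
    have := h e.symm
    cases a' <;> cases b' <;> first | rfl | exact absurd rfl this

lemma isReduced_append {L₁ L₂ : List (ι × Bool)} :
    IsReduced (L₁ ++ L₂) ↔ IsReduced L₁ ∧ IsReduced L₂ ∧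
      ∀ x ∈ L₁.getLast?, ∀ y ∈ L₂.head?, y ≠ opp x := by
  unfold FreeGroup.IsReduced
  rw [List.isChain_append]
  simp only [ok_iff]

lemma isReduced_invRev {L : List (ι × Bool)} (h : IsReduced L) : IsReduced (invRev L) := by
  unfold FreeGroup.IsReduced at *
  unfold invRev
  rw [List.isChain_reverse, List.isChain_map]
  refine h.imp ?_
  rintro a b hab e
  have := hab e.symm
  simp [this]

/-- `w` is a reduced word of length `s` with first letter `p` and last letter `q`. -/
structure Blk (s : ℕ) (p q : ι × Bool) (w : List (ι × Bool)) : Prop where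
  len : w.length = s
  red : IsReduced w
  hd : w.head? = some p
  lst : w.getLast? = some q

lemma Blk.append {s s' : ℕ} {p q p' q' : ι × Bool} {w w' : List (ι × Bool)}
    (h : Blk s p q w) (h' : Blk s' p' q' w') (hne : p' ≠ opp q) :
    Blk (s + s') p q' (w ++ w') := by
  refine ⟨by simp [h.len, h'.len], ?_, ?_, ?_⟩
  · rw [isReduced_append]
    refine ⟨h.red, h'.red, ?_⟩
    intro x hx y hy
    rw [h.lst] at hx
    rw [h'.hd] at hy
    simp only [Option.mem_def, Option.some.injEq] at hx hy
    subst hx hy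
    exact hne
  · simp [List.head?_append, h.hd]
  · simp [List.getLast?_append, h'.lst]

lemma Blk.inv {s : ℕ} {p q : ι × Bool} {w : List (ι × Bool)} (h : Blk s p q w) :
    Blk s (opp q) (opp p) (invRev w) := by
  refine ⟨by rw [invRev_length, h.len], isReduced_invRev h.red, ?_, ?_⟩
  · simp [invRev, h.lst, opp]
  · simp [invRev, h.hd, opp]

lemma Blk.single (x : ι × Bool) : Blk 1 x x [x] := by
  refine ⟨rfl, FreeGroup.IsReduced.singleton, rfl, rfl⟩

variable [DecidableEq ι]

lemma mk_inj_of_reduced {w w' : List (ι × Bool)} (h : IsReduced w) (h' : IsReduced w')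
    (e : FreeGroup.mk w = FreeGroup.mk w') : w = w' := by
  have := congrArg FreeGroup.toWord e
  rwa [FreeGroup.toWord_mk, FreeGroup.toWord_mk, h.reduce_eq, h'.reduce_eq] at this

end Words

section Good

variable {ι : Type*}

/-- The subgroup `K` contains exponentially many elements given by blocks of the same length
with the same first and last letters, at rate `δ`. -/
def Good (K : Subgroup (FreeGroup ι)) (δ : ℝ) : Prop :=
  ∃ (s : ℕ) (p q : ι × Bool) (U : Finset (List (ι × Bool))),
    0 < s ∧ p ≠ opp q ∧ (∀ w ∈ U, Blk s p q w ∧ FreeGroup.mk w ∈ K) ∧ U.Nonempty ∧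
      s * δ ≤ Real.log U.card

/-- concatenation of a word of blocks -/
def cat {U : Finset (List (ι × Bool))} {n : ℕ} (f : Fin n → U) : List (ι × Bool) :=
  (List.ofFn fun i => (f i).1).flatten

lemma cat_succ {U : Finset (List (ι × Bool))} {n : ℕ} (f : Fin (n + 1) → U) :
    cat f = (f 0).1 ++ cat (fun i => f i.succ) := by
  simp [cat, List.ofFn_succ]

lemma cat_blk {U : Finset (List (ι × Bool))} {s : ℕ} {p q : ι × Bool} (hpq : p ≠ opp q)
    (hU : ∀ w ∈ U, Blk s p q w) {n : ℕ} (hn : 0 < n) (f : Fin n → U) :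
    Blk (n * s) p q (cat f) := by
  induction n with
  | zero => exact absurd hn (lt_irrefl _)
  | succ n ih =>
    rcases Nat.eq_zero_or_pos n with rfl | hn'
    · have := hU _ (f 0).2
      rw [cat_succ]
      simpa [cat] using this
    · rw [cat_succ]
      have := (hU _ (f 0).2).append (ih hn' (fun i => f i.succ)) hpq
      convert this using 1
      ring

lemma cat_inj {U : Finset (List (ι × Bool))} {s : ℕ} (hU : ∀ w ∈ U, w.length = s) {n : ℕ}
    {f f' : Fin n → U} (h : cat f = cat f') : f = f' := by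
  induction n with
  | zero => exact Subsingleton.elim _ _
  | succ n ih =>
    rw [cat_succ, cat_succ] at h
    have hl : ((f 0).1).length = ((f' 0).1).length := by
      rw [hU _ (f 0).2, hU _ (f' 0).2]
    obtain ⟨h1, h2⟩ := List.append_inj h hl
    have h3 := ih h2
    funext i
    refine Fin.cases (Subtype.ext h1) (fun j => ?_) i
    exact congrFun h3 j

lemma mk_cat_mem {K : Subgroup (FreeGroup ι)} {U : Finset (List (ι × Bool))}
    (hU : ∀ w ∈ U, FreeGroup.mk w ∈ K) {n : ℕ} (f : Fin n → U) :
    FreeGroup.mk (cat f) ∈ K := by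
  induction n with
  | zero =>
    have : FreeGroup.mk (cat f) = 1 := by simp [cat, FreeGroup.one_eq_mk]
    rw [this]
    exact K.one_mem
  | succ n ih =>
    rw [cat_succ, ← FreeGroup.mul_mk]
    exact K.mul_mem (hU _ (f 0).2) (ih _)

lemma mk_cat {U : Finset (List (ι × Bool))} {n : ℕ} (f : Fin n → U) :
    FreeGroup.mk (cat f) = ((List.ofFn f).map (fun u => FreeGroup.mk u.1)).prod := by
  induction n with
  | zero => simp [cat, FreeGroup.one_eq_mk]
  | succ n ih =>
    rw [cat_succ, ← FreeGroup.mul_mk, ih]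
    simp [List.ofFn_succ]

lemma exists_ne3 [Fintype ι] [DecidableEq ι] (h : 2 ≤ Fintype.card ι) (x y z : ι × Bool) :
    ∃ w : ι × Bool, w ≠ x ∧ w ≠ y ∧ w ≠ z := by
  have h1 : ({x, y, z} : Finset (ι × Bool)).card ≤ 3 := Finset.card_le_three
  have h2 : Fintype.card (ι × Bool) = Fintype.card ι * 2 := by simp
  obtain ⟨w, hw⟩ : ∃ w, w ∉ ({x, y, z} : Finset (ι × Bool)) := by
    by_contra hcon
    push Not at hcon
    have h3 : ({x, y, z} : Finset (ι × Bool)) = Finset.univ := Finset.eq_univ_iff_forall.mpr hcon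
    rw [h3, Finset.card_univ] at h1
    omega
  simp only [Finset.mem_insert, Finset.mem_singleton, not_or] at hw
  exact ⟨w, hw.1, hw.2.1, hw.2.2⟩

lemma exists_large {c : ℝ} (hc : 0 < c) (A B : ℝ) (hA : 0 ≤ A) :
    ∃ n : ℕ, 0 < n ∧ A * Real.log (n + 1) + B ≤ c * n := by
  have hε : 0 < c / (2 * (A + 1)) := by positivity
  have h1 := Real.isLittleO_log_id_atTop.def hε
  have h2 : Filter.Tendsto (fun n : ℕ => ((n : ℝ) + 1)) Filter.atTop Filter.atTop :=
    Filter.tendsto_atTop_add_const_right _ _ tendsto_natCast_atTop_atTop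
  have h3 := h2.eventually h1
  obtain ⟨N, hN⟩ := Filter.eventually_atTop.mp h3
  obtain ⟨M, hM⟩ := exists_nat_ge ((B + c) * 2 / c)
  refine ⟨max (max N M) 1, by positivity, ?_⟩
  set n := max (max N M) 1 with hn
  have hnN : N ≤ n := le_trans (le_max_left _ _) (le_max_left _ _)
  have hnM : (M : ℝ) ≤ n := by exact_mod_cast le_trans (le_max_right _ _) (le_max_left _ _)
  have h4 := hN n hnN
  simp only [id] at h4
  rw [Real.norm_of_nonneg (Real.log_nonneg (by linarith [Nat.cast_nonneg (α := ℝ) n])),
    Real.norm_of_nonneg (by positivity)] at h4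
  have h5 : A * Real.log (n + 1) ≤ c / 2 * (n + 1) := by
    calc A * Real.log (n + 1) ≤ (A + 1) * Real.log (n + 1) := by
          apply mul_le_mul_of_nonneg_right (by linarith)
          exact Real.log_nonneg (by linarith [Nat.cast_nonneg (α := ℝ) n])
      _ ≤ (A + 1) * (c / (2 * (A + 1)) * (n + 1)) := by
          apply mul_le_mul_of_nonneg_left h4 (by linarith)
      _ = c / 2 * (n + 1) := by
          field_simp
  have h6 : B + c ≤ c / 2 * n := by
    have := hM.trans hnM
    rw [div_le_iff₀ hc] at this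
    linarith
  nlinarith [h5, h6]

/-- The map sending a word of blocks to the numbers of its occurrences. -/
def cnt [DecidableEq ι] {U : Finset (List (ι × Bool))} {n : ℕ} (f : Fin n → U) : U → Fin (n + 1) :=
  fun u => ⟨(List.ofFn f).count u, by
    have := List.count_le_length (a := u) (l := List.ofFn f)
    rw [List.length_ofFn] at this
    omega⟩

lemma perm_of_cnt [DecidableEq ι] {U : Finset (List (ι × Bool))} {n : ℕ} {f f' : Fin n → U}
    (h : cnt f = cnt f') : (List.ofFn f).Perm (List.ofFn f') := by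
  rw [List.perm_iff_count]
  intro u
  have := congrArg Fin.val (congrFun h u)
  exact this

lemma div_mem_of_cnt [DecidableEq ι] {K K' : Subgroup (FreeGroup ι)} [K'.Normal]
    (hcomm : ∀ x ∈ K, ∀ y ∈ K, ⁅x, y⁆ ∈ K')
    {U : Finset (List (ι × Bool))} (hU : ∀ w ∈ U, FreeGroup.mk w ∈ K) {n : ℕ} {f f' : Fin n → U}
    (h : cnt f = cnt f') : FreeGroup.mk (cat f) * (FreeGroup.mk (cat f'))⁻¹ ∈ K' := by
  have key : (QuotientGroup.mk' K') (FreeGroup.mk (cat f))
      = (QuotientGroup.mk' K') (FreeGroup.mk (cat f')) := by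
    rw [mk_cat, mk_cat, map_list_prod, map_list_prod, List.map_map, List.map_map]
    apply List.Perm.prod_eq'
    · exact (perm_of_cnt h).map _
    · rw [List.pairwise_map]
      apply List.pairwise_of_forall
      intro u v
      change _ * _ = _ * _
      simp only [Function.comp]
      rw [← map_mul, ← map_mul]
      have h1 := hcomm _ (hU u.1 u.2) _ (hU v.1 v.2)
      rw [commutatorElement_def] at h1
      rw [QuotientGroup.mk'_eq_mk']
      refine ⟨((FreeGroup.mk u.1) * (FreeGroup.mk v.1))⁻¹ * ((FreeGroup.mk v.1) * (FreeGroup.mk u.1)), ?_, by group⟩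
      have h2 := (inferInstance : K'.Normal).conj_mem _ (K'.inv_mem h1)
        (((FreeGroup.mk u.1) * (FreeGroup.mk v.1))⁻¹)
      convert h2 using 1
      group
  rw [← QuotientGroup.eq_one_iff]
  change (QuotientGroup.mk' K') _ = 1
  rw [map_mul, map_inv, key, mul_inv_cancel]

lemma Good.step [Fintype ι] [DecidableEq ι] (hι : 2 ≤ Fintype.card ι)
    {K K' : Subgroup (FreeGroup ι)} [hKn : K.Normal] [K'.Normal]
    (hcomm : ∀ x ∈ K, ∀ y ∈ K, ⁅x, y⁆ ∈ K') {δ δ' : ℝ} (hδ : δ' < δ)
    (h : Good K δ) : Good K' δ' := by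
  obtain ⟨s, p, q, U, hs, hpq, hU, hne, hcard⟩ := h
  obtain ⟨x, hxq, hxp, -⟩ := exists_ne3 hι (opp q) p p
  obtain ⟨y, hyx, hyp, hyq⟩ := exists_ne3 hι (opp x) (opp p) q
  obtain ⟨u0, hu0⟩ := hne
  obtain ⟨hu0b, hu0K⟩ := hU u0 hu0
  set t : List (ι × Bool) := [x] ++ [y] ++ u0 ++ [opp y] ++ [opp x] with ht
  have htb : Blk (1 + 1 + s + 1 + 1) x (opp x) t := by
    refine ((((Blk.single x).append (Blk.single y) hyx).append hu0b ?_).append
      (Blk.single (opp y)) ?_).append (Blk.single (opp x)) ?_
    · intro e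
      exact hyp (by rw [e, opp_opp])
    · intro e
      exact hyq (opp_inj e)
    · intro e
      apply hyx
      rw [e, opp_opp]
  have htK : FreeGroup.mk t ∈ K := by
    have h1 : FreeGroup.mk t = FreeGroup.mk [x, y] * FreeGroup.mk u0 * (FreeGroup.mk [x, y])⁻¹ := by
      rw [FreeGroup.inv_mk, FreeGroup.mul_mk, FreeGroup.mul_mk]
      simp [ht, invRev, opp]
    rw [h1]
    exact hKn.conj_mem _ hu0K _
  set T0 := 1 + 1 + s + 1 + 1 with hT0
  -- the words
  let W : ∀ {n : ℕ}, (Fin n → U) × (Fin n → U) → List (ι × Bool) := fun {n} ff =>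
    cat ff.1 ++ t ++ invRev (cat ff.2) ++ invRev t
  have hWb : ∀ {n : ℕ}, 0 < n → ∀ ff : (Fin n → U) × (Fin n → U),
      Blk (n * s + T0 + n * s + T0) p (opp x) (W ff) := by
    intro n hn ff
    have c1 := cat_blk hpq (fun w hw => (hU w hw).1) hn ff.1
    have c2 := (cat_blk hpq (fun w hw => (hU w hw).1) hn ff.2).inv
    refine ((c1.append htb hxq).append c2 ?_).append htb.inv ?_
    · rw [opp_opp]
      exact hxq.symm
    · rw [opp_opp, opp_opp]
      exact hxp
  have hWK : ∀ {n : ℕ} (ff : (Fin n → U) × (Fin n → U)), cnt ff.1 = cnt ff.2 →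
      FreeGroup.mk (W ff) ∈ K' := by
    intro n ff hff
    have e1 : FreeGroup.mk (W ff) = (FreeGroup.mk (cat ff.1) * (FreeGroup.mk (cat ff.2))⁻¹) *
        ⁅FreeGroup.mk (cat ff.2), FreeGroup.mk t⁆ := by
      simp only [W, ← FreeGroup.mul_mk, ← FreeGroup.inv_mk]
      rw [commutatorElement_def]
      group
    rw [e1]
    apply K'.mul_mem
    · exact div_mem_of_cnt hcomm (fun w hw => (hU w hw).2) hff
    · exact hcomm _ (mk_cat_mem (fun w hw => (hU w hw).2) _) _ htK
  have hWinj : ∀ {n : ℕ} (ff ff' : (Fin n → U) × (Fin n → U)), 0 < n → W ff = W ff' → ff = ff' := by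
    intro n ff ff' hn e
    simp only [W] at e
    have l1 := (cat_blk hpq (fun w hw => (hU w hw).1) hn ff.1).len
    have l1' := (cat_blk hpq (fun w hw => (hU w hw).1) hn ff'.1).len
    have l2 := (cat_blk hpq (fun w hw => (hU w hw).1) hn ff.2).len
    have l2' := (cat_blk hpq (fun w hw => (hU w hw).1) hn ff'.2).len
    have lt := htb.len
    obtain ⟨e1, -⟩ := List.append_inj e (by simp [l1, l1', l2, l2'])
    obtain ⟨e2, e3⟩ := List.append_inj e1 (by simp [l1, l1'])
    obtain ⟨e4, -⟩ := List.append_inj e2 (by simp [l1, l1'])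
    have e5 := FreeGroup.invRev_injective e3
    have hlen : ∀ w ∈ U, w.length = s := fun w hw => (hU w hw).1.len
    exact Prod.ext (cat_inj hlen e4) (cat_inj hlen e5)
  -- choose n
  have hA : 0 < (U.card : ℝ) := by
    exact_mod_cast Finset.card_pos.mpr ⟨u0, hu0⟩
  have hc : 0 < 2 * (s : ℝ) * (δ - δ') := by
    have : (0 : ℝ) < s := by exact_mod_cast hs
    have : 0 < δ - δ' := by linarith
    positivity
  obtain ⟨n, hn, hnl⟩ := exists_large hc (2 * U.card) (2 * T0 * δ') (by positivity)
  -- pigeonhole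
  set b : ℝ := (U.card : ℝ) ^ n / ((n : ℝ) + 1) ^ U.card with hb
  have hb0 : 0 < b := by positivity
  obtain ⟨v, hv⟩ : ∃ v : U → Fin (n + 1),
      b ≤ ((Finset.univ.filter fun f : Fin n → U => cnt f = v).card : ℝ) := by
    apply Fintype.exists_le_card_fiber_of_nsmul_le_card
    simp only [Fintype.card_fun, Fintype.card_fin, Fintype.card_coe, nsmul_eq_mul, Nat.cast_pow,
      Nat.cast_add, Nat.cast_one]
    rw [hb, mul_div_cancel₀]
    positivity
  set T := Finset.univ.filter fun f : Fin n → U => cnt f = v with hT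
  refine ⟨n * s + T0 + n * s + T0, p, opp x, (T ×ˢ T).image W, by omega, ?_, ?_, ?_, ?_⟩
  · rw [opp_opp]
    exact hxp.symm
  · intro w hw
    obtain ⟨ff, hff, rfl⟩ := Finset.mem_image.mp hw
    rw [Finset.mem_product] at hff
    refine ⟨hWb hn ff, hWK ff ?_⟩
    have h1 := (Finset.mem_filter.mp hff.1).2
    have h2 := (Finset.mem_filter.mp hff.2).2
    rw [h1, h2]
  · have : T.Nonempty := by
      rw [← Finset.card_pos]
      have := hb0.trans_le hv
      exact_mod_cast this
    exact (this.product this).image _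
  · rw [Finset.card_image_of_injOn (fun a _ b _ e => hWinj a b hn e), Finset.card_product]
    push_cast
    have hT0' : (0 : ℝ) < T.card := hb0.trans_le hv
    rw [Real.log_mul hT0'.ne' hT0'.ne']
    have h1 : Real.log b ≤ Real.log T.card := Real.log_le_log hb0 hv
    have h2 : Real.log b = n * Real.log U.card - U.card * Real.log (n + 1) := by
      rw [hb, Real.log_div (by positivity) (by positivity), Real.log_pow, Real.log_pow]
    have h3 : (n : ℝ) * (s * δ) ≤ n * Real.log U.card :=
      mul_le_mul_of_nonneg_left hcard (Nat.cast_nonneg n)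
    have hT0c : (T0 : ℝ) = s + 4 := by rw [hT0]; push_cast; ring
    rw [h2] at h1
    nlinarith [h1, h3, hnl]

lemma good_top [Fintype ι] (hι : 2 ≤ Fintype.card ι) {δ : ℝ}
    (hδ : δ < Real.log (Fintype.card ι)) : Good (⊤ : Subgroup (FreeGroup ι)) δ := by
  classical
  have hne : Nonempty ι := by
    rw [← Fintype.card_pos_iff]
    omega
  obtain ⟨x0⟩ := hne
  obtain ⟨n, hn, hnl⟩ := exists_large (c := Real.log (Fintype.card ι) - δ) (by linarith) 0
    (2 * δ) le_rfl
  let W : (Fin n → ι) → List (ι × Bool) := fun f =>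
    (x0, true) :: (List.ofFn fun i => (f i, true)) ++ [(x0, true)]
  refine ⟨n + 2, (x0, true), (x0, true), Finset.univ.image W, by omega, by simp [opp], ?_, ?_, ?_⟩
  · intro w hw
    obtain ⟨f, -, rfl⟩ := Finset.mem_image.mp hw
    refine ⟨⟨by simp [W], ?_, by simp [W], List.getLast?_concat⟩, trivial⟩
    unfold FreeGroup.IsReduced
    apply List.Pairwise.isChain
    rw [List.pairwise_iff_forall_sublist]
    intro a b hab hab'
    have ha : a ∈ W f := hab.subset (by simp)
    have hb : b ∈ W f := hab.subset (by simp)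
    have key : ∀ c ∈ W f, c.2 = true := by
      intro c hc
      simp only [W, List.cons_append, List.mem_cons, List.mem_append, List.mem_ofFn',
        Set.mem_range, List.not_mem_nil, or_false] at hc
      rcases hc with rfl | ⟨i, rfl⟩ | rfl <;> rfl
    rw [key a ha, key b hb]
  · exact ⟨_, Finset.mem_image_of_mem _ (Finset.mem_univ fun _ => x0)⟩
  · rw [Finset.card_image_of_injective]
    · simp only [Finset.card_univ, Fintype.card_fun, Fintype.card_fin, Nat.cast_pow]
      rw [Real.log_pow]
      push_cast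
      nlinarith [hnl]
    · intro f f' e
      simp only [W, List.cons_append, List.cons.injEq, true_and] at e
      have e1 := List.append_cancel_right e
      have e2 := List.ofFn_injective e1
      funext i
      have := congrFun e2 i
      exact (Prod.mk.injEq _ _ _ _ ▸ this).1

/-- The growth of a good subgroup. -/
lemma Good.growth [DecidableEq ι] {K : Subgroup (FreeGroup ι)} {δ : ℝ} (h : Good K δ) :
    ∃ s : ℕ, 0 < s ∧ ∀ n : ℕ, ∃ V : Finset (FreeGroup ι),
      (∀ x ∈ V, x ∈ K ∧ ∃ w : List (ι × Bool), w.length = n * s ∧ FreeGroup.mk w = x) ∧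
      V.Nonempty ∧ n * (s * δ) ≤ Real.log V.card := by
  classical
  obtain ⟨s, p, q, U, hs, hpq, hU, ⟨u0, hu0⟩, hcard⟩ := h
  refine ⟨s, hs, fun n => ?_⟩
  rcases Nat.eq_zero_or_pos n with rfl | hn
  · refine ⟨{1}, ?_, ⟨1, by simp⟩, by simp⟩
    intro x hx
    rw [Finset.mem_singleton.mp hx]
    exact ⟨K.one_mem, [], by simp, rfl⟩
  · refine ⟨Finset.univ.image fun f : Fin n → U => FreeGroup.mk (cat f), ?_, ?_, ?_⟩
    · intro x hx
      obtain ⟨f, -, rfl⟩ := Finset.mem_image.mp hx
      exact ⟨mk_cat_mem (fun w hw => (hU w hw).2) f, cat f,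
        (cat_blk hpq (fun w hw => (hU w hw).1) hn f).len, rfl⟩
    · exact ⟨_, Finset.mem_image_of_mem _ (Finset.mem_univ fun _ => ⟨u0, hu0⟩)⟩
    · rw [Finset.card_image_of_injective]
      · simp only [Finset.card_univ, Fintype.card_fun, Fintype.card_fin, Fintype.card_coe,
          Nat.cast_pow]
        rw [Real.log_pow]
        exact mul_le_mul_of_nonneg_left hcard (Nat.cast_nonneg n)
      · intro f f' e
        apply cat_inj (fun w hw => (hU w hw).1.len)
        exact mk_inj_of_reduced (cat_blk hpq (fun w hw => (hU w hw).1) hn f).red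
          (cat_blk hpq (fun w hw => (hU w hw).1) hn f').red e

end Good

end Pool.Agent.Hhelper67.Johnson
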