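import Pool.Agent.Hhelper67.Johnson.Defs
import Pool.Agent.Hhelper67.Johnson.FreeWords

/-!
Commutators in the Johnson filtration.
-/

namespace Pool.Agent.Hhelper67.Johnson

open scoped commutatorElement

section LCS

variable {G : Type*} [Group G]

/-- the quotient by a term of the lower central series -/
abbrev qm (G : Type*) [Group G] (k : ℕ) : G →* G ⧸ (⊤ : Subgroup G).lowerCentralSeries k :=
  QuotientGroup.mk' ((⊤ : Subgroup G).lowerCentralSeries k)

lemma qm_eq_one {k : ℕ} {x : G} : qm G k x = 1 ↔ x ∈ (⊤ : Subgroup G).lowerCentralSeries k :=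
  QuotientGroup.eq_one_iff x

lemma qm_eq {k : ℕ} {x y : G} :
    qm G k x = qm G k y ↔ x * y⁻¹ ∈ (⊤ : Subgroup G).lowerCentralSeries k := by
  rw [← qm_eq_one, map_mul, map_inv, mul_inv_eq_one]

lemma lcs_commutator_one (j : ℕ) :
    ⁅⁅(⊤ : Subgroup G), (⊤ : Subgroup G)⁆, (⊤ : Subgroup G).lowerCentralSeries j⁆ ≤
      (⊤ : Subgroup G).lowerCentralSeries (j + 2) := by
  set N := (⊤ : Subgroup G).lowerCentralSeries (j + 2) with hN
  set f := QuotientGroup.mk' N with hf
  set L := (⊤ : Subgroup G).lowerCentralSeries j with hL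
  have hbot : (⁅⁅L, (⊤ : Subgroup G)⁆, (⊤ : Subgroup G)⁆).map f = ⊥ := by
    have : ⁅⁅L, (⊤ : Subgroup G)⁆, (⊤ : Subgroup G)⁆ = N := rfl
    rw [this, Subgroup.map_eq_bot_iff]
    rw [hf, QuotientGroup.ker_mk']
  have htop : (⊤ : Subgroup G).map f = ⊤ := by
    rw [← MonoidHom.range_eq_map, MonoidHom.range_eq_top]
    exact QuotientGroup.mk'_surjective N
  rw [Subgroup.map_commutator, Subgroup.map_commutator, htop] at hbot
  have h3 : ⁅⁅(⊤ : Subgroup (G ⧸ N)), (⊤ : Subgroup (G ⧸ N))⁆, L.map f⁆ = ⊥ := by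
    apply Subgroup.commutator_commutator_eq_bot_of_rotate
    · rw [Subgroup.commutator_comm ⊤ (L.map f)]
      exact hbot
    · exact hbot
  have h4 : (⁅⁅(⊤ : Subgroup G), (⊤ : Subgroup G)⁆, L⁆).map f = ⊥ := by
    rw [Subgroup.map_commutator, Subgroup.map_commutator, htop]
    exact h3
  rw [Subgroup.map_eq_bot_iff, hf, QuotientGroup.ker_mk'] at h4
  exact h4

lemma comm_of_commutator_mem {k : ℕ} {a b : G}
    (h : ⁅a, b⁆ ∈ (⊤ : Subgroup G).lowerCentralSeries k) :
    qm G k a * qm G k b = qm G k b * qm G k a := by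
  rw [← map_mul, ← map_mul, qm_eq]
  rw [commutatorElement_def] at h
  convert h using 1
  group

/-- elements of `γ j` are central modulo `γ (j+1)` -/
lemma lcs_central {j : ℕ} {a : G} (ha : a ∈ (⊤ : Subgroup G).lowerCentralSeries j) (x : G) :
    qm G (j + 1) a * qm G (j + 1) x = qm G (j + 1) x * qm G (j + 1) a :=
  comm_of_commutator_mem (Subgroup.commutator_mem_commutator ha (Subgroup.mem_top x))

lemma lcs_act {φ : MulAut G} (hφ : ∀ x, qm G 1 (φ x) = qm G 1 x) (j : ℕ) :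
    ∀ x ∈ (⊤ : Subgroup G).lowerCentralSeries j, qm G (j + 1) (φ x) = qm G (j + 1) x := by
  induction j with
  | zero => exact fun x _ => hφ x
  | succ j ih =>
    have key : (⊤ : Subgroup G).lowerCentralSeries (j + 1) ≤
        ((qm G (j + 2)).comp φ.toMonoidHom).eqLocus (qm G (j + 2)) := by
      rw [Subgroup.lowerCentralSeries_succ, Subgroup.commutator_le]
      intro a ha b _
      change qm G (j + 2) (φ ⁅a, b⁆) = qm G (j + 2) ⁅a, b⁆
      obtain ⟨a', ha', ea⟩ : ∃ a' ∈ (⊤ : Subgroup G).lowerCentralSeries (j + 1), φ a = a' * a :=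
        ⟨φ a * a⁻¹, qm_eq.mp (ih a ha), by group⟩
      obtain ⟨b', hb', eb⟩ : ∃ b' ∈ (⊤ : Subgroup G).lowerCentralSeries 1, φ b = b' * b :=
        ⟨φ b * b⁻¹, qm_eq.mp (hφ b), by group⟩
      have c1 := fun x => lcs_central ha' x
      have hab : ⁅a, b⁆ ∈ (⊤ : Subgroup G).lowerCentralSeries (j + 1) :=
        Subgroup.commutator_mem_commutator ha (Subgroup.mem_top b)
      have c2 := lcs_central hab b'
      have h3 : ⁅b', a⁆ ∈ (⊤ : Subgroup G).lowerCentralSeries (j + 2) :=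
        lcs_commutator_one j (Subgroup.commutator_mem_commutator hb' ha)
      have c3 := comm_of_commutator_mem h3
      have c1' := c1 (a * (b' * b) * a⁻¹)
      rw [map_commutatorElement, ea, eb]
      simp only [commutatorElement_def, _root_.map_mul, _root_.map_inv] at *
      generalize qm G (j + 2) a = A at *
      generalize qm G (j + 2) b = B at *
      generalize qm G (j + 2) b' = B' at *
      generalize qm G (j + 2) a' = A' at *
      change A' * A * (B' * B) * (A' * A)⁻¹ * (B' * B)⁻¹ = _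
      calc A' * A * (B' * B) * (A' * A)⁻¹ * (B' * B)⁻¹
          = (A' * (A * (B' * B) * A⁻¹)) * A'⁻¹ * B⁻¹ * B'⁻¹ := by group
        _ = ((A * (B' * B) * A⁻¹) * A') * A'⁻¹ * B⁻¹ * B'⁻¹ := by rw [c1']
        _ = (A * B') * B * A⁻¹ * B⁻¹ * B'⁻¹ := by group
        _ = (B' * A) * B * A⁻¹ * B⁻¹ * B'⁻¹ := by rw [c3]
        _ = B' * (A * B * A⁻¹ * B⁻¹) * B'⁻¹ := by group
        _ = (A * B * A⁻¹ * B⁻¹) * B' * B'⁻¹ := by rw [c2]
        _ = A * B * A⁻¹ * B⁻¹ := by group
    intro x hx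
    exact key hx

lemma lcs_comm {k : ℕ} (hk : 1 ≤ k) {φ ψ : MulAut G}
    (hφ : ∀ x, qm G k (φ x) = qm G k x)
    (hψ : ∀ x, qm G k (ψ x) = qm G k x) (x : G) :
    qm G (k + 1) (φ (ψ x)) = qm G (k + 1) (ψ (φ x)) := by
  have hle : (⊤ : Subgroup G).lowerCentralSeries k ≤ (⊤ : Subgroup G).lowerCentralSeries 1 :=
    Subgroup.lowerCentralSeries_antitone _ hk
  have down : ∀ {θ : MulAut G}, (∀ x, qm G k (θ x) = qm G k x) →
      (∀ x, qm G 1 (θ x) = qm G 1 x) := by
    intro θ hθ x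
    exact qm_eq.mpr (hle (qm_eq.mp (hθ x)))
  obtain ⟨a, ha, ea⟩ : ∃ a ∈ (⊤ : Subgroup G).lowerCentralSeries k, ψ x = a * x :=
    ⟨ψ x * x⁻¹, qm_eq.mp (hψ x), by group⟩
  obtain ⟨b, hb, eb⟩ : ∃ b ∈ (⊤ : Subgroup G).lowerCentralSeries k, φ x = b * x :=
    ⟨φ x * x⁻¹, qm_eq.mp (hφ x), by group⟩
  have h1 := lcs_act (down hφ) k a ha
  have h2 := lcs_act (down hψ) k b hb
  have h3 := lcs_central ha b
  have e1 : φ (ψ x) = φ a * (b * x) := by rw [ea, map_mul, eb]
  have e2 : ψ (φ x) = ψ b * (a * x) := by rw [eb, map_mul, ea]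
  rw [e1, e2, map_mul, map_mul, map_mul, map_mul, h1, h2, ← mul_assoc, ← mul_assoc, h3]

end LCS

section JohnsonComm

variable {g : ℕ}

lemma expSum_conj (x : Gen g) (h y : SurfaceGroup g) :
    expSum x (h * y * h⁻¹) = expSum x y := by
  rw [map_mul, map_mul, map_inv, mul_comm (expSum x h), mul_assoc, mul_inv_cancel, mul_one]

lemma conj_mem_autPlus (h : SurfaceGroup g) : MulAut.conj h ∈ autPlus g := by
  intro x y
  simp only [inter, coord, MulAut.conj_apply, expSum_conj]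

lemma modIncl_injective (g : ℕ) : Function.Injective (modIncl g) := Subtype.val_injective

lemma exists_rep (z : MCG g) : ∃ φ ∈ autPlus g, toOut _ φ = modIncl g z := by
  obtain ⟨z, φ, hφ, e⟩ := z
  exact ⟨φ, hφ, e⟩

lemma mem_johnson_iff (m : ℕ) (z : MCG g) :
    z ∈ johnson g m ↔ ∃ φ ∈ autPlus g, toOut _ φ = modIncl g z ∧
      ∀ x, qm (SurfaceGroup g) m (φ x) = qm (SurfaceGroup g) m x := by
  constructor
  · intro hz
    obtain ⟨φ₀, hφ₀, e⟩ := exists_rep z
    rw [johnson, MonoidHom.mem_ker, johnsonMap, MonoidHom.comp_apply, ← e, outQuot_toOut,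
      toOut_eq_one] at hz
    obtain ⟨h, hh⟩ := hz
    obtain ⟨h, rfl⟩ := QuotientGroup.mk_surjective h
    refine ⟨(MulAut.conj h)⁻¹ * φ₀, (autPlus g).mul_mem ((autPlus g).inv_mem
      (conj_mem_autPlus h)) hφ₀, ?_, ?_⟩
    · rw [map_mul]
      have : toOut (SurfaceGroup g) (MulAut.conj h)⁻¹ = 1 := by
        rw [map_inv, inv_eq_one]
        exact toOut_eq_one.mpr ⟨h, rfl⟩
      rw [this, one_mul, e]
    · intro x
      have h1 := congrArg (fun θ : MulAut _ => θ (x : SurfaceGroup g ⧸ gam g (m + 1))) hh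
      have h2 : qm (SurfaceGroup g) m h * qm (SurfaceGroup g) m x * (qm (SurfaceGroup g) m h)⁻¹ =
        qm (SurfaceGroup g) m (φ₀ x) := h1
      rw [← map_inv MulAut.conj, MulAut.mul_apply, MulAut.conj_apply, map_mul, map_mul, map_inv,
        map_inv, map_inv, inv_inv, ← h2]
      group
  · rintro ⟨φ, hφ, e, hx⟩
    rw [johnson, MonoidHom.mem_ker, johnsonMap, MonoidHom.comp_apply, ← e, outQuot_toOut,
      toOut_eq_one]
    have : autQuot (gam g (m + 1)) φ = 1 := by
      ext y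
      induction y using QuotientGroup.induction_on with
      | H y => exact hx y
    rw [this]
    exact Subgroup.one_mem _

lemma johnson_commutator {m : ℕ} (hm : 1 ≤ m) {z w : MCG g} (hz : z ∈ johnson g m)
    (hw : w ∈ johnson g m) : ⁅z, w⁆ ∈ johnson g (m + 1) := by
  rw [mem_johnson_iff] at *
  obtain ⟨φ, hφ, eφ, hφx⟩ := hz
  obtain ⟨ψ, hψ, eψ, hψx⟩ := hw
  refine ⟨⁅φ, ψ⁆, ?_, ?_, ?_⟩
  · rw [commutatorElement_def]
    exact (autPlus g).mul_mem ((autPlus g).mul_mem ((autPlus g).mul_mem hφ hψ)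
      ((autPlus g).inv_mem hφ)) ((autPlus g).inv_mem hψ)
  · rw [map_commutatorElement, map_commutatorElement, eφ, eψ]
  · intro x
    have h1 : ⁅φ, ψ⁆ x = φ (ψ (φ⁻¹ (ψ⁻¹ x))) := rfl
    have h2 := lcs_comm (k := m) hm (φ := φ) (ψ := ψ) hφx hψx (φ⁻¹ (ψ⁻¹ x))
    have h3 : ψ (φ (φ⁻¹ (ψ⁻¹ x))) = x := by
      rw [MulAut.apply_inv_self, MulAut.apply_inv_self]
    rw [h3] at h2
    rw [h1]
    exact h2

instance johnson_normal (g m : ℕ) : (johnson g m).Normal := by
  unfold johnson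
  infer_instance

lemma johnson_antitone (m : ℕ) : johnson g (m + 1) ≤ johnson g m := by
  intro z hz
  rw [mem_johnson_iff] at *
  obtain ⟨φ, hφ, eφ, hφx⟩ := hz
  refine ⟨φ, hφ, eφ, fun x => ?_⟩
  exact qm_eq.mpr (Subgroup.lowerCentralSeries_antitone _ (Nat.le_succ m) (qm_eq.mp (hφx x)))

/-- Free subgroups of the Torelli group meet every Johnson term with full growth. -/
lemma good_johnson {ι : Type*} [Fintype ι] (hι : 2 ≤ Fintype.card ι)
    (ρ : FreeGroup ι →* MCG g) (hρ : ∀ x, ρ x ∈ johnson g 1) (m : ℕ) :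
    ∀ δ < Real.log (Fintype.card ι), Good ((johnson g (m + 1)).comap ρ) δ := by
  classical
  induction m with
  | zero =>
    intro δ hδ
    have : (johnson g (0 + 1)).comap ρ = ⊤ := by
      rw [eq_top_iff]
      exact fun x _ => hρ x
    rw [this]
    exact good_top hι hδ
  | succ m ih =>
    intro δ hδ
    have h1 : (δ + Real.log (Fintype.card ι)) / 2 < Real.log (Fintype.card ι) := by linarith
    have hn : ∀ k, ((johnson g k).comap ρ).Normal := by
      intro k
      exact (johnson_normal g k).comap ρ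
    have i1 := hn (m + 1)
    have i2 := hn (m + 1 + 1)
    have h2 : ∀ x ∈ (johnson g (m + 1)).comap ρ, ∀ y ∈ (johnson g (m + 1)).comap ρ,
        ⁅x, y⁆ ∈ (johnson g (m + 1 + 1)).comap ρ := by
      intro x hx y hy
      rw [Subgroup.mem_comap, map_commutatorElement]
      exact johnson_commutator (by omega) hx hy
    exact Good.step hι h2 (by linarith : δ < (δ + Real.log (Fintype.card ι)) / 2) (ih _ h1)

end JohnsonComm

end Pool.Agent.Hhelper67.Johnson
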