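import Mathlib

/-!
Definitions for the logarithmic density of the Johnson filtration.
-/

namespace Pool.Agent.Hhelper67.Johnson

open scoped commutatorElement

/-- The letters of the standard presentation of the surface group of genus `g`:
`(i, false)` stands for `a_i` and `(i, true)` for `b_i`. -/
abbrev Gen (g : ℕ) := Fin g × Bool

/-- The word `[a_1, b_1] ⋯ [a_g, b_g]`. -/
def relator (g : ℕ) : FreeGroup (Gen g) :=
  (List.ofFn fun i : Fin g => ⁅FreeGroup.of (i, false), FreeGroup.of (i, true)⁆).prod

/-- The fundamental group `π` of the closed orientable surface of genus `g`. -/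
def SurfaceGroup (g : ℕ) : Type := PresentedGroup {relator g}

instance surfaceGroupGroup (g : ℕ) : Group (SurfaceGroup g) :=
  instGroupPresentedGroup {relator g}

lemma lift_relator {g : ℕ} {A : Type*} [CommGroup A] (f : Gen g → A) :
    FreeGroup.lift f (relator g) = 1 := by
  unfold relator
  rw [map_list_prod]
  apply List.prod_eq_one
  intro x hx
  simp only [List.map_ofFn, List.mem_ofFn', Set.mem_range, Function.comp] at hx
  obtain ⟨i, rfl⟩ := hx
  simp [commutatorElement_def]

lemma lift_relators {g : ℕ} {A : Type*} [CommGroup A] (f : Gen g → A) :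
    ∀ r ∈ ({relator g} : Set (FreeGroup (Gen g))), FreeGroup.lift f r = 1 := by
  intro r hr
  rw [Set.mem_singleton_iff.mp hr]
  exact lift_relator _

/-- The exponent sum of the letter `x`, as a homomorphism on `π`. -/
def expSum {g : ℕ} (x : Gen g) : SurfaceGroup g →* Multiplicative ℤ :=
  PresentedGroup.toGroup
    (lift_relators fun y => Multiplicative.ofAdd (if y = x then (1 : ℤ) else 0))

/-- The exponent sum of the letter `x` in an element of `π`, as an integer. -/
def coord {g : ℕ} (x : Gen g) (y : SurfaceGroup g) : ℤ := (expSum x y).toAdd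

/-- The algebraic intersection number of (the homology classes of) `x` and `y`. -/
def inter {g : ℕ} (x y : SurfaceGroup g) : ℤ :=
  ∑ i : Fin g, (coord (i, false) x * coord (i, true) y - coord (i, true) x * coord (i, false) y)

section Out

variable (G : Type) [Group G]

/-- The group of inner automorphisms. -/
def Inn : Subgroup (MulAut G) := (MulAut.conj : G →* MulAut G).range

instance innNormal : (Inn G).Normal := by
  constructor
  rintro _ ⟨x, rfl⟩ φ
  refine ⟨φ x, ?_⟩
  ext y
  simp [MulAut.conj_apply]

/-- The outer automorphism group. -/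
def Out : Type := MulAut G ⧸ Inn G

instance outGroup : Group (Out G) := QuotientGroup.Quotient.group (Inn G)

/-- The class of an automorphism in the outer automorphism group. -/
def toOut : MulAut G →* Out G := QuotientGroup.mk' (Inn G)

variable {G}

lemma toOut_eq_one {φ : MulAut G} : toOut G φ = 1 ↔ φ ∈ Inn G :=
  QuotientGroup.eq_one_iff φ

lemma toOut_eq {φ ψ : MulAut G} : toOut G φ = toOut G ψ ↔ φ⁻¹ * ψ ∈ Inn G :=
  QuotientGroup.eq

lemma toOut_surjective : Function.Surjective (toOut G) :=
  QuotientGroup.mk'_surjective _

lemma map_char (N : Subgroup G) [N.Characteristic] (φ : MulAut G) :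
    N.map (φ : G ≃* G) = N :=
  Subgroup.characteristic_iff_map_eq.mp inferInstance φ

/-- The automorphism of `G / N` induced by an automorphism of `G`, for characteristic `N`. -/
def quotAut (N : Subgroup G) [N.Characteristic] (φ : MulAut G) : MulAut (G ⧸ N) :=
  QuotientGroup.congr N N φ (map_char N φ)

lemma quotAut_mul (N : Subgroup G) [N.Characteristic] (φ ψ : MulAut G) :
    quotAut N (φ * ψ) = quotAut N φ * quotAut N ψ := by
  ext x
  induction x using QuotientGroup.induction_on with
  | H x => rfl

/-- The action of the automorphism group on the quotient by a characteristic subgroup. -/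
def autQuot (N : Subgroup G) [N.Characteristic] : MulAut G →* MulAut (G ⧸ N) :=
  MonoidHom.mk' (quotAut N) (quotAut_mul N)

@[simp] lemma autQuot_mk (N : Subgroup G) [N.Characteristic] (φ : MulAut G) (x : G) :
    autQuot N φ (x : G ⧸ N) = ((φ x : G) : G ⧸ N) := rfl

lemma inn_le (N : Subgroup G) [N.Characteristic] :
    Inn G ≤ (Inn (G ⧸ N)).comap (autQuot N) := by
  rintro _ ⟨x, rfl⟩
  refine ⟨(x : G ⧸ N), ?_⟩
  ext y
  induction y using QuotientGroup.induction_on with
  | H y => rfl

/-- The homomorphism `Out G → Out (G / N)` for a characteristic subgroup `N`. -/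
def outQuot (N : Subgroup G) [N.Characteristic] : Out G →* Out (G ⧸ N) :=
  QuotientGroup.map (Inn G) (Inn (G ⧸ N)) (autQuot N) (inn_le N)

lemma outQuot_toOut (N : Subgroup G) [N.Characteristic] (φ : MulAut G) :
    outQuot N (toOut G φ) = toOut (G ⧸ N) (autQuot N φ) := rfl

end Out

/-- `φ` preserves the algebraic intersection form. -/
def PreservesInter {g : ℕ} (φ : MulAut (SurfaceGroup g)) : Prop :=
  ∀ x y, inter (φ x) (φ y) = inter x y

lemma PreservesInter.mul {g : ℕ} {φ ψ : MulAut (SurfaceGroup g)} (hφ : PreservesInter φ)
    (hψ : PreservesInter ψ) : PreservesInter (φ * ψ) := by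
  intro x y
  rw [MulAut.mul_apply, MulAut.mul_apply, hφ, hψ]

lemma PreservesInter.one {g : ℕ} : PreservesInter (1 : MulAut (SurfaceGroup g)) :=
  fun _ _ => rfl

lemma PreservesInter.inv {g : ℕ} {φ : MulAut (SurfaceGroup g)} (hφ : PreservesInter φ) :
    PreservesInter φ⁻¹ := by
  intro x y
  have := hφ (φ⁻¹ x) (φ⁻¹ y)
  rw [MulAut.apply_inv_self, MulAut.apply_inv_self] at this
  exact this.symm

/-- The automorphisms of `π` that preserve the algebraic intersection form
(the orientation-preserving ones). -/
def autPlus (g : ℕ) : Subgroup (MulAut (SurfaceGroup g)) where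
  carrier := {φ | PreservesInter φ}
  mul_mem' := PreservesInter.mul
  one_mem' := PreservesInter.one
  inv_mem' := PreservesInter.inv

/-- The subgroup of `Out π` of the classes of orientation-preserving automorphisms. -/
def outPlus (g : ℕ) : Subgroup (Out (SurfaceGroup g)) :=
  (autPlus g).map (toOut (SurfaceGroup g))

/-- The mapping class group `Mod_g`, by the Dehn–Nielsen–Baer theorem the group of
orientation-preserving outer automorphisms of `π`. -/
def MCG (g : ℕ) : Type := outPlus g

instance modGroup (g : ℕ) : Group (MCG g) := (outPlus g).toGroup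

/-- The inclusion of the mapping class group in `Out π`. -/
def modIncl (g : ℕ) : MCG g →* Out (SurfaceGroup g) := (outPlus g).subtype

/-- `γ_k π`, with `γ_1 π = π` and `γ_{k+1} π = [γ_k π, π]` (and `γ_0 π = π` by convention). -/
def gam (g k : ℕ) : Subgroup (SurfaceGroup g) :=
  (⊤ : Subgroup (SurfaceGroup g)).lowerCentralSeries (k - 1)

instance gamChar (g k : ℕ) : (gam g k).Characteristic :=
  inferInstanceAs ((⊤ : Subgroup (SurfaceGroup g)).lowerCentralSeries (k - 1)).Characteristic

/-- The homomorphism `Mod_g → Out (π / γ_{m+1} π)`. -/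
def johnsonMap (g m : ℕ) : MCG g →* Out (SurfaceGroup g ⧸ gam g (m + 1)) :=
  (outQuot (gam g (m + 1))).comp (modIncl g)

/-- The `m`-th term of the Johnson filtration: the kernel of `Mod_g → Out (π / γ_{m+1} π)`. -/
def johnson (g m : ℕ) : Subgroup (MCG g) := (johnsonMap g m).ker

section Density

variable {G : Type} [Group G]

/-- The ball of radius `r` about the identity in the word metric of `S`. -/
def ball (S : Finset G) (r : ℕ) : Set G :=
  {x | ∃ l : List G, l.length ≤ r ∧ (∀ s ∈ l, s ∈ S ∨ s⁻¹ ∈ S) ∧ l.prod = x}

/-- `log #(B(r) ∩ A) / log #B(r)`. -/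
noncomputable def logRatio (S : Finset G) (A : Set G) (r : ℕ) : ℝ :=
  Real.log ((ball S r ∩ A).ncard : ℝ) / Real.log ((ball S r).ncard : ℝ)

/-- The lower logarithmic density of `A` with respect to `S`. -/
noncomputable def lowerLogDensity (S : Finset G) (A : Set G) : ℝ :=
  Filter.liminf (logRatio S A) Filter.atTop

/-- The upper logarithmic density of `A` with respect to `S`. -/
noncomputable def upperLogDensity (S : Finset G) (A : Set G) : ℝ :=
  Filter.limsup (logRatio S A) Filter.atTop

end Density

end Pool.Agent.Hhelper67.Johnson
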