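import Pool.Agent.Hhelper67.Johnson.Autos

/-!
Ping-pong for the explicit automorphisms.
-/

namespace Pool.Agent.Hhelper67.Johnson

open scoped commutatorElement

section Perms

/-- the translation by `(t, u)` -/
def tr (t u : ℤ) : Equiv.Perm (ℤ × ℤ) where
  toFun p := (p.1 + t, p.2 + u)
  invFun p := (p.1 - t, p.2 - u)
  left_inv p := by simp
  right_inv p := by simp

/-- the reflection `p ↦ (t, u) - p` -/
def ng (t u : ℤ) : Equiv.Perm (ℤ × ℤ) where
  toFun p := (t - p.1, u - p.2)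
  invFun p := (t - p.1, u - p.2)
  left_inv p := by simp
  right_inv p := by simp

/-- the shear `(x, y) ↦ (x, y + k x)` -/
def Uq (k : ℤ) : Equiv.Perm (ℤ × ℤ) where
  toFun p := (p.1, p.2 + k * p.1)
  invFun p := (p.1, p.2 - k * p.1)
  left_inv p := by simp
  right_inv p := by simp

/-- the shear `(x, y) ↦ (x + k y, y)` -/
def Vq (k : ℤ) : Equiv.Perm (ℤ × ℤ) where
  toFun p := (p.1 + k * p.2, p.2)
  invFun p := (p.1 - k * p.2, p.2)
  left_inv p := by simp
  right_inv p := by simp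

lemma tr_mul_tr (a b c d : ℤ) : tr a b * tr c d = tr (a + c) (b + d) := by
  ext p <;> simp [tr] <;> ring
lemma tr_mul_ng (a b c d : ℤ) : tr a b * ng c d = ng (a + c) (b + d) := by
  ext p <;> simp [tr, ng] <;> ring
lemma ng_mul_tr (a b c d : ℤ) : ng a b * tr c d = ng (a - c) (b - d) := by
  ext p <;> simp [tr, ng] <;> ring
lemma ng_mul_ng (a b c d : ℤ) : ng a b * ng c d = tr (a - c) (b - d) := by
  ext p <;> simp [tr, ng] <;> ring
lemma tr_zero : tr 0 0 = 1 := by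
  ext p <;> simp [tr]
lemma tr_inv (a b : ℤ) : (tr a b)⁻¹ = tr (-a) (-b) := by
  rw [inv_eq_iff_mul_eq_one, tr_mul_tr, add_neg_cancel, add_neg_cancel, tr_zero]
lemma ng_inv (a b : ℤ) : (ng a b)⁻¹ = ng a b := by
  rw [inv_eq_iff_mul_eq_one, ng_mul_ng, sub_self, sub_self, tr_zero]
lemma Uq_mul (k l : ℤ) : Uq k * Uq l = Uq (k + l) := by
  ext p <;> simp [Uq]
  ring
lemma Uq_zero : Uq 0 = 1 := by
  ext p <;> simp [Uq]
lemma Uq_inv (k : ℤ) : (Uq k)⁻¹ = Uq (-k) := by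
  rw [inv_eq_iff_mul_eq_one, Uq_mul, add_neg_cancel, Uq_zero]
lemma Vq_mul (k l : ℤ) : Vq k * Vq l = Vq (k + l) := by
  ext p <;> simp [Vq]
  ring
lemma Vq_zero : Vq 0 = 1 := by
  ext p <;> simp [Vq]
lemma Vq_inv (k : ℤ) : (Vq k)⁻¹ = Vq (-k) := by
  rw [inv_eq_iff_mul_eq_one, Vq_mul, add_neg_cancel, Vq_zero]
lemma Uq_conj_tr (k a b : ℤ) : Uq k * tr a b * (Uq k)⁻¹ = tr a (b + k * a) := by
  rw [Uq_inv]
  ext p <;> simp [Uq, tr]
  ring
lemma Uq_conj_ng (k a b : ℤ) : Uq k * ng a b * (Uq k)⁻¹ = ng a (b + k * a) := by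
  rw [Uq_inv]
  ext p <;> simp [Uq, ng]
  ring
lemma Vq_conj_tr (k a b : ℤ) : Vq k * tr a b * (Vq k)⁻¹ = tr (a + k * b) b := by
  rw [Vq_inv]
  ext p <;> simp [Vq, tr]
  ring
lemma Vq_conj_ng (k a b : ℤ) : Vq k * ng a b * (Vq k)⁻¹ = ng (a + k * b) b := by
  rw [Vq_inv]
  ext p <;> simp [Vq, ng]
  ring
lemma Uq_zpow (k m : ℤ) : (Uq k) ^ m = Uq (k * m) := by
  induction m using Int.induction_on with
  | zero => rw [zpow_zero, mul_zero, Uq_zero]
  | succ m ih => rw [zpow_add, ih, zpow_one, Uq_mul]; congr 1; ring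
  | pred m ih => rw [zpow_sub, ih, zpow_one, Uq_inv, Uq_mul]; congr 1; ring
lemma tr_zpow (a b m : ℤ) : (tr a b) ^ m = tr (a * m) (b * m) := by
  induction m using Int.induction_on with
  | zero => rw [zpow_zero, mul_zero, mul_zero, tr_zero]
  | succ m ih => rw [zpow_add, ih, zpow_one, tr_mul_tr]; congr 1 <;> ring
  | pred m ih => rw [zpow_sub, ih, zpow_one, tr_inv, tr_mul_tr]; congr 1 <;> ring

/-- the letters of the ping-pong free group -/
def wq (i : ℤ) : Equiv.Perm (ℤ × ℤ) := Vq i * Uq 4 * (Vq i)⁻¹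

lemma wq_zpow_apply (i m : ℤ) (p : ℤ × ℤ) :
    (wq i ^ m) p = (p.1 - i * p.2 + i * (p.2 + 4 * m * (p.1 - i * p.2)),
      p.2 + 4 * m * (p.1 - i * p.2)) := by
  have h : wq i ^ m = Vq i * (Uq (4 * m)) * (Vq i)⁻¹ := by
    rw [wq, conj_zpow, Uq_zpow]
  rw [h, Vq_inv]
  have h2 : (Vq i * Uq (4 * m) * Vq (-i)) p =
      ((p.1 + (-i) * p.2) + i * (p.2 + 4 * m * (p.1 + (-i) * p.2)),
        p.2 + 4 * m * (p.1 + (-i) * p.2)) := rfl
  rw [h2]
  ext
  · change (p.1 + (-i) * p.2) + i * (p.2 + 4 * m * (p.1 + (-i) * p.2)) =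
      p.1 - i * p.2 + i * (p.2 + 4 * m * (p.1 - i * p.2))
    ring
  · change p.2 + 4 * m * (p.1 + (-i) * p.2) = p.2 + 4 * m * (p.1 - i * p.2)
    ring

/-- the ping-pong sets -/
def Xq (i : ℤ) : Set (ℤ × ℤ) := {p | 2 * |p.1 - i * p.2| < |p.2|}

lemma Xq_disjoint {i j : ℤ} (h : i ≠ j) : Disjoint (Xq i) (Xq j) := by
  rw [Set.disjoint_left]
  rintro ⟨x, y⟩ h1 h2
  simp only [Xq, Set.mem_ofPred_eq] at h1 h2
  have h3 : (i - j) * y = (x - j * y) - (x - i * y) := by ring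
  have h4 : |(i - j) * y| ≤ |x - j * y| + |x - i * y| := by
    rw [h3]
    exact abs_sub _ _
  rw [abs_mul] at h4
  have h5 : 1 ≤ |i - j| := Int.one_le_abs (sub_ne_zero.mpr h)
  nlinarith [abs_nonneg y]

lemma Xq_nonempty (i : ℤ) : (Xq i).Nonempty := ⟨(i, 1), by simp [Xq]⟩

lemma Xq_pp {i j : ℤ} (h : i ≠ j) {m : ℤ} (hm : m ≠ 0) {p : ℤ × ℤ} (hp : p ∈ Xq j) :
    (wq i ^ m) p ∈ Xq i := by
  obtain ⟨x, y⟩ := p
  rw [wq_zpow_apply]
  simp only [Xq, Set.mem_ofPred_eq] at hp ⊢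
  set x' := x - i * y with hx'
  have e1 : x' + i * (y + 4 * m * x') - i * (y + 4 * m * x') = x' := by ring
  rw [e1]
  have h3 : (j - i) * y = x' - (x - j * y) := by rw [hx']; ring
  have h4 : |(j - i) * y| ≤ |x'| + |x - j * y| := by
    rw [h3]
    exact abs_sub _ _
  rw [abs_mul] at h4
  have h5 : 1 ≤ |j - i| := Int.one_le_abs (sub_ne_zero.mpr h.symm)
  have h6 : |y| < 2 * |x'| := by nlinarith [abs_nonneg y]
  have h7 : |4 * m * x'| ≤ |y + 4 * m * x'| + |y| := by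
    have : 4 * m * x' = (y + 4 * m * x') - y := by ring
    calc |4 * m * x'| = |(y + 4 * m * x') - y| := by rw [← this]
      _ ≤ _ := abs_sub _ _
  rw [abs_mul, abs_mul] at h7
  have h8 : 1 ≤ |m| := Int.one_le_abs hm
  have h9 : |(4 : ℤ)| = 4 := by norm_num
  rw [h9] at h7
  nlinarith [abs_nonneg x']

end Perms

section PP

open scoped Function Pointwise

/-- ping-pong for cyclic groups -/
lemma free_of_pp {ι : Type} [Nontrivial ι] {G : Type} [Group G] (a : ι → G) {α : Type}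
    [MulAction G α] (X : ι → Set α) (hne : ∀ i, (X i).Nonempty)
    (hd : Pairwise (Disjoint on X))
    (hpp : ∀ i j, i ≠ j → ∀ m : ℤ, m ≠ 0 → ∀ p ∈ X j, a i ^ m • p ∈ X i) :
    Function.Injective (FreeGroup.lift a) := by
  have : FreeGroup.lift a =
      (Monoid.CoprodI.lift fun i => FreeGroup.lift fun _ => a i).comp
        (@freeGroupEquivCoprodI ι).toMonoidHom := by
    ext i
    simp
  rw [this, MonoidHom.coe_comp]
  clear this
  refine Function.Injective.comp ?_ (MulEquiv.injective freeGroupEquivCoprodI)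
  change Function.Injective (Monoid.CoprodI.lift fun i : ι => FreeGroup.lift fun _ => a i)
  let H : ι → Type _ := fun _i => FreeGroup Unit
  let f : ∀ i, H i →* G := fun i => FreeGroup.lift fun _ => a i
  apply Monoid.CoprodI.lift_injective_of_ping_pong f _ X
  · exact hne
  · exact hd
  · change Pairwise fun i j => ∀ h : H i, h ≠ 1 → f i h • X j ⊆ X i
    intro i j hij
    refine FreeGroup.freeGroupUnitEquivInt.forall_congr_left.mpr ?_
    intro n hne1
    change FreeGroup.lift (fun _ => a i) (FreeGroup.of () ^ n) • X j ⊆ X i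
    simp only [map_zpow, FreeGroup.lift_apply_of]
    have hnne0 : n ≠ 0 := by
      rintro rfl
      apply hne1
      simp [H, FreeGroup.freeGroupUnitEquivInt]
    rintro _ ⟨p, hp, rfl⟩
    exact hpp i j hij n hnne0 p hp
  · show _ ∨ ∃ i, 3 ≤ Cardinal.mk (H i)
    obtain ⟨i⟩ : Nonempty ι := inferInstance
    right
    refine ⟨i, ?_⟩
    simp only [H]
    rw [FreeGroup.freeGroupUnitEquivInt.cardinal_eq, Cardinal.mk_denumerable]
    exact Cardinal.natCast_le_aleph0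

/-- the homomorphism from the free group to permutations of `ℤ × ℤ` -/
def zet (N : ℕ) : FreeGroup (Fin N) →* Equiv.Perm (ℤ × ℤ) :=
  FreeGroup.lift fun i => wq (i : ℕ)

lemma zet_injective {N : ℕ} (hN : 2 ≤ N) : Function.Injective (zet N) := by
  have : Nontrivial (Fin N) := Fin.nontrivial_iff_two_le.mpr hN
  apply free_of_pp (fun i : Fin N => wq (i : ℕ)) (fun i : Fin N => Xq (i : ℕ))
  · exact fun i => Xq_nonempty _
  · intro i j hij
    apply Xq_disjoint
    exact fun h => hij (Fin.ext (by exact_mod_cast h))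
  · intro i j hij m hm p hp
    exact Xq_pp (fun h => hij (Fin.ext (by exact_mod_cast h))) hm hp

lemma zet_zero (N : ℕ) (w : FreeGroup (Fin N)) : zet N w (0, 0) = (0, 0) := by
  have h : (zet N).range ≤ MulAction.stabilizer (Equiv.Perm (ℤ × ℤ)) ((0, 0) : ℤ × ℤ) := by
    apply FreeGroup.range_lift_le
    rintro _ ⟨i, rfl⟩
    change wq _ (0, 0) = (0, 0)
    have := wq_zpow_apply (i : ℕ) 1 (0, 0)
    rw [zpow_one] at this
    rw [this]
    simp
  exact h ⟨w, rfl⟩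

end PP

section Detection

variable {n : ℕ}

/-- the detecting representation -/
def Phi (n : ℕ) : SurfaceGroup (n + 2) →* Equiv.Perm (ℤ × ℤ) :=
  homOf (tr 1 0) (tr 0 1) (tr 0 0) (ng 0 0) (fun _ _ => 1) (by
    unfold FullRel
    simp only [commutatorElement_def, tr_mul_tr, tr_mul_ng, ng_mul_tr, ng_mul_ng, tr_inv, ng_inv]
    norm_num [tr_zero])

@[simp] lemma Phi_a0 : Phi n (a0 n) = tr 1 0 := homOf_a0 _ _ _ _ _ _
@[simp] lemma Phi_b0 : Phi n (b0 n) = tr 0 1 := homOf_b0 _ _ _ _ _ _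
@[simp] lemma Phi_a1 : Phi n (a1 n) = tr 0 0 := homOf_a1 _ _ _ _ _ _
@[simp] lemma Phi_b1 : Phi n (b1 n) = ng 0 0 := homOf_b1 _ _ _ _ _ _
@[simp] lemma Phi_r (i : Fin n) (b : Bool) : Phi n (rest n i b) = 1 := homOf_r _ _ _ _ _ _ _ _

/-- pairs of an automorphism and a permutation intertwined by `Phi` -/
def typeSub (n : ℕ) : Subgroup (MulAut (SurfaceGroup (n + 2)) × Equiv.Perm (ℤ × ℤ)) where
  carrier := {p | ∀ x, Phi n (p.1 x) = p.2 * Phi n x * p.2⁻¹}
  mul_mem' {p q} hp hq x := by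
    change Phi n (p.1 (q.1 x)) = (p.2 * q.2) * Phi n x * (p.2 * q.2)⁻¹
    rw [hp, hq]
    group
  one_mem' x := by simp
  inv_mem' {p} hp x := by
    have h := hp (p.1⁻¹ x)
    rw [MulAut.apply_inv_self] at h
    change Phi n (p.1⁻¹ x) = p.2⁻¹ * Phi n x * (p.2⁻¹)⁻¹
    rw [h]
    group

lemma type_u (k : ℤ) : (uA n k, Uq k) ∈ typeSub n := by
  have h : (Phi n).comp (uE n k) = (MulAut.conj (Uq k)).toMonoidHom.comp (Phi n) := by
    apply hom_ext
    all_goals simp only [MonoidHom.comp_apply, uE, endo_a0, endo_b0, endo_a1, endo_b1, endo_r,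
      map_mul, map_zpow, Phi_a0, Phi_b0, Phi_a1, Phi_b1, Phi_r, MulEquiv.coe_toMonoidHom,
      MulAut.conj_apply, Uq_conj_tr, Uq_conj_ng, tr_zpow, tr_mul_tr, mul_one, mul_inv_cancel,
      implies_true]
    all_goals congr 1 <;> ring
  intro x
  exact DFunLike.congr_fun h x

lemma type_v (k : ℤ) : (vA n k, Vq k) ∈ typeSub n := by
  have h : (Phi n).comp (vE n k) = (MulAut.conj (Vq k)).toMonoidHom.comp (Phi n) := by
    apply hom_ext
    all_goals simp only [MonoidHom.comp_apply, vE, endo_a0, endo_b0, endo_a1, endo_b1, endo_r,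
      map_mul, map_zpow, Phi_a0, Phi_b0, Phi_a1, Phi_b1, Phi_r, MulEquiv.coe_toMonoidHom,
      MulAut.conj_apply, Vq_conj_tr, Vq_conj_ng, tr_zpow, tr_mul_tr, mul_one, mul_inv_cancel,
      implies_true]
    all_goals congr 1 <;> ring
  intro x
  exact DFunLike.congr_fun h x

lemma type_f : (fA n, Uq 4) ∈ typeSub n := by
  have he : Phi n (eE n) = ng 0 (-1) := by
    simp only [eE, map_mul, map_inv, Phi_a1, Phi_b0, Phi_b1, tr_mul_tr, tr_mul_ng, ng_mul_tr,
      tr_inv]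
    norm_num
  have h1 : ((Phi n).comp (tE n)) (a0 n) = ng 1 (-1) := by
    rw [MonoidHom.comp_apply, tE, endo_a0, map_mul, he, Phi_a0, tr_mul_ng]
    norm_num
  have h2 : ((Phi n).comp (tE n)) (b0 n) = tr 0 (-1) := by
    rw [MonoidHom.comp_apply, tE, endo_b0, map_mul, map_mul, map_inv, he, Phi_b0, ng_inv,
      ng_mul_tr, ng_mul_ng]
    norm_num
  have h3 : ((Phi n).comp (tE n)) (a1 n) = ng 0 (-1) := by
    rw [MonoidHom.comp_apply, tE, endo_a1, map_mul, map_inv, he, Phi_a1, ng_inv, ng_mul_tr]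
    norm_num
  have h4 : ((Phi n).comp (tE n)) (b1 n) = ng 0 0 := by
    rw [MonoidHom.comp_apply, tE, endo_b1, Phi_b1]
  have h5 : ∀ i b, ((Phi n).comp (tE n)) (rest n i b) = 1 := by
    intro i b
    rw [MonoidHom.comp_apply, tE, endo_r, Phi_r]
  have h6 : ((Phi n).comp (tE n)) (cE n) = tr 0 2 := by
    rw [cE, map_commutatorElement, h1, h2]
    simp only [commutatorElement_def, tr_mul_tr, ng_mul_tr, ng_mul_ng, tr_inv, ng_inv]
    norm_num
  have h : ((Phi n).comp (tE n)).comp (cEnd n 1) =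
      (MulAut.conj (Uq 4)).toMonoidHom.comp ((Phi n).comp (tE n)) := by
    generalize (Phi n).comp (tE n) = F at *
    apply hom_ext
    · rw [MonoidHom.comp_apply, cEnd, endo_a0, map_mul, map_mul, map_inv, map_zpow, h6,
        MonoidHom.comp_apply, h1, MulEquiv.coe_toMonoidHom, MulAut.conj_apply, Uq_conj_ng, zpow_one,
        tr_inv, tr_mul_ng, ng_mul_tr]
      norm_num
    · rw [MonoidHom.comp_apply, cEnd, endo_b0, map_mul, map_mul, map_inv, map_zpow, h6,
        MonoidHom.comp_apply, h2, MulEquiv.coe_toMonoidHom, MulAut.conj_apply, Uq_conj_tr, zpow_one,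
        tr_inv, tr_mul_tr, tr_mul_tr]
      norm_num
    · rw [MonoidHom.comp_apply, cEnd, endo_a1, MonoidHom.comp_apply, h3, MulEquiv.coe_toMonoidHom,
        MulAut.conj_apply, Uq_conj_ng]
      norm_num
    · rw [MonoidHom.comp_apply, cEnd, endo_b1, MonoidHom.comp_apply, h4, MulEquiv.coe_toMonoidHom,
        MulAut.conj_apply, Uq_conj_ng]
      norm_num
    · intro i b
      rw [MonoidHom.comp_apply, cEnd, endo_r, MonoidHom.comp_apply, h5, map_one]
  intro x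
  have h7 := DFunLike.congr_fun h ((tA n)⁻¹ x)
  have h8 : fA n x = tE n (cEnd n 1 ((tA n)⁻¹ x)) := rfl
  have h9 : tE n ((tA n)⁻¹ x) = x := (tA n).apply_symm_apply x
  change Phi n (fA n x) = Uq 4 * Phi n x * (Uq 4)⁻¹
  rw [h8]
  change Phi n (tE n (cEnd n 1 ((tA n)⁻¹ x))) = Uq 4 * Phi n (tE n ((tA n)⁻¹ x)) * (Uq 4)⁻¹ at h7
  rw [h7, h9]

lemma tr_add (t u s v : ℤ) : tr t u (s, v) = (s + t, v + u) := rfl

lemma Phi_image (h : SurfaceGroup (n + 2)) :
    ∃ t u, Phi n h = tr t u ∨ Phi n h = ng t u := by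
  let D : Subgroup (Equiv.Perm (ℤ × ℤ)) :=
    { carrier := {σ | ∃ t u, σ = tr t u ∨ σ = ng t u}
      mul_mem' := by
        rintro σ τ ⟨t, u, h1⟩ ⟨s, v, h2⟩
        rcases h1 with rfl | rfl <;> rcases h2 with rfl | rfl
        · exact ⟨_, _, Or.inl (tr_mul_tr _ _ _ _)⟩
        · exact ⟨_, _, Or.inr (tr_mul_ng _ _ _ _)⟩
        · exact ⟨_, _, Or.inr (ng_mul_tr _ _ _ _)⟩
        · exact ⟨_, _, Or.inl (ng_mul_ng _ _ _ _)⟩
      one_mem' := ⟨0, 0, Or.inl tr_zero.symm⟩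
      inv_mem' := by
        rintro σ ⟨t, u, h1⟩
        rcases h1 with rfl | rfl
        · exact ⟨_, _, Or.inl (tr_inv _ _)⟩
        · exact ⟨_, _, Or.inr (ng_inv _ _)⟩ }
  have key : ∀ x, PresentedGroup.of x ∈ D.comap (Phi n) := by
    rintro ⟨i, b⟩
    refine Fin.cases ?_ (fun i => ?_) i
    · cases b
      · exact ⟨_, _, Or.inl Phi_a0⟩
      · exact ⟨_, _, Or.inl Phi_b0⟩
    · refine Fin.cases ?_ (fun i => ?_) i
      · cases b
        · exact ⟨_, _, Or.inl Phi_a1⟩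
        · exact ⟨_, _, Or.inr Phi_b1⟩
      · exact ⟨0, 0, Or.inl ((Phi_r i b).trans tr_zero.symm)⟩
  exact PresentedGroup.generated_by _ _ key h

/-- an inner automorphism of linear type has type `±1` -/
lemma inner_type {A : Equiv.Perm (ℤ × ℤ)} (hA : A (0, 0) = (0, 0)) {h : SurfaceGroup (n + 2)}
    (ht : (MulAut.conj h, A) ∈ typeSub n) : A * A = 1 := by
  set B := A⁻¹ * Phi n h with hB
  have hc : ∀ x, B * Phi n x = Phi n x * B := by
    intro x
    have h1 := ht x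
    change Phi n (MulAut.conj h x) = A * Phi n x * A⁻¹ at h1
    rw [MulAut.conj_apply, map_mul, map_mul, map_inv] at h1
    rw [hB]
    calc A⁻¹ * Phi n h * Phi n x = A⁻¹ * (Phi n h * Phi n x * (Phi n h)⁻¹) * Phi n h := by group
      _ = A⁻¹ * (A * Phi n x * A⁻¹) * Phi n h := by rw [h1]
      _ = Phi n x * (A⁻¹ * Phi n h) := by group
  have htr : ∀ t u : ℤ, B * tr t u = tr t u * B := by
    intro t u
    have h1 := hc (a0 n ^ t * b0 n ^ u)
    rw [map_mul, map_zpow, map_zpow, Phi_a0, Phi_b0, tr_zpow, tr_zpow, tr_mul_tr] at h1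
    simpa using h1
  obtain ⟨s, v⟩ : ∃ p : ℤ × ℤ, B (0, 0) = p := ⟨_, rfl⟩
  have hB0 : ∃ s v, B (0, 0) = (s, v) := ⟨_, _, rfl⟩
  obtain ⟨s, v, hsv⟩ := hB0
  have hBtr : ∀ p, B p = (p.1 + s, p.2 + v) := by
    rintro ⟨x, y⟩
    have h1 := congrArg (fun σ : Equiv.Perm (ℤ × ℤ) => σ (0, 0)) (htr x y)
    change B (tr x y (0, 0)) = tr x y (B (0, 0)) at h1
    rw [hsv, tr_add, tr_add] at h1
    simp only [zero_add] at h1
    rw [h1]
    ext <;> simp [add_comm]
  have hng := hc (b1 n)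
  rw [Phi_b1] at hng
  have h2 := congrArg (fun σ : Equiv.Perm (ℤ × ℤ) => σ (0, 0)) hng
  change B (ng 0 0 (0, 0)) = ng 0 0 (B (0, 0)) at h2
  have h3 : ng 0 0 (0, 0) = (0, 0) := by simp [ng]
  rw [h3, hsv] at h2
  have h4 : ng 0 0 (s, v) = (-s, -v) := by simp [ng]
  rw [h4, Prod.mk.injEq] at h2
  have hs : s = 0 := by omega
  have hv : v = 0 := by omega
  have hB1 : B = 1 := by
    ext p
    · rw [hBtr, hs]; simp
    · rw [hBtr, hv]; simp
  have hPA : Phi n h = A := by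
    rw [hB, inv_mul_eq_one] at hB1
    exact hB1.symm
  obtain ⟨t, u, h5⟩ := Phi_image h
  rw [hPA] at h5
  rcases h5 with h5 | h5
  · have h6 : tr t u (0, 0) = (0, 0) := by rw [← h5]; exact hA
    rw [tr_add, Prod.mk.injEq] at h6
    have ht : t = 0 := by omega
    have hu : u = 0 := by omega
    rw [h5, ht, hu, tr_zero, one_mul]
  · have h6 : ng t u (0, 0) = (0, 0) := by rw [← h5]; exact hA
    have h7 : ng t u (0, 0) = (t, u) := by simp [ng]
    rw [h7, Prod.mk.injEq] at h6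
    rw [h5, h6.1, h6.2, ng_mul_ng, sub_zero, tr_zero]

end Detection

end Pool.Agent.Hhelper67.Johnson
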