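import Pool.Agent.Hhelper67.Johnson.Detect

/-!
Free families in the mapping class group and in the Torelli group.
-/

namespace Pool.Agent.Hhelper67.Johnson

open scoped commutatorElement

section Homology

variable {n : ℕ}

/-- exponent sum of `a_0` -/
abbrev eA (n : ℕ) : SurfaceGroup (n + 2) →* Multiplicative ℤ := expSum (0, false)
/-- exponent sum of `b_0` -/
abbrev eB (n : ℕ) : SurfaceGroup (n + 2) →* Multiplicative ℤ := expSum (0, true)
/-- exponent sums of the other letters -/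
abbrev eR (n : ℕ) (i : Fin (n + 1)) (b : Bool) : SurfaceGroup (n + 2) →* Multiplicative ℤ :=
  expSum (i.succ, b)

lemma expSum_of {g : ℕ} (x y : Gen g) :
    expSum x (PresentedGroup.of y : PresentedGroup {relator g}) =
      Multiplicative.ofAdd (if y = x then 1 else 0) :=
  PresentedGroup.toGroup.of _

lemma eA_a0 : eA n (a0 n) = Multiplicative.ofAdd 1 :=
  (expSum_of (0, false) (0, false)).trans (by rw [if_pos rfl])
lemma eA_b0 : eA n (b0 n) = 1 :=
  (expSum_of (0, false) (0, true)).trans (by rw [if_neg (by simp)]; rfl)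
lemma eA_a1 : eA n (a1 n) = 1 :=
  (expSum_of (0, false) (Fin.succ 0, false)).trans (by rw [if_neg (by simp)]; rfl)
lemma eA_b1 : eA n (b1 n) = 1 :=
  (expSum_of (0, false) (Fin.succ 0, true)).trans (by rw [if_neg (by simp)]; rfl)
lemma eA_r (i : Fin n) (b : Bool) : eA n (rest n i b) = 1 :=
  (expSum_of (0, false) (i.succ.succ, b)).trans (by rw [if_neg (by simp)]; rfl)
lemma eB_a0 : eB n (a0 n) = 1 :=
  (expSum_of (0, true) (0, false)).trans (by rw [if_neg (by simp)]; rfl)
lemma eB_b0 : eB n (b0 n) = Multiplicative.ofAdd 1 :=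
  (expSum_of (0, true) (0, true)).trans (by rw [if_pos rfl])
lemma eB_a1 : eB n (a1 n) = 1 :=
  (expSum_of (0, true) (Fin.succ 0, false)).trans (by rw [if_neg (by simp)]; rfl)
lemma eB_b1 : eB n (b1 n) = 1 :=
  (expSum_of (0, true) (Fin.succ 0, true)).trans (by rw [if_neg (by simp)]; rfl)
lemma eB_r (i : Fin n) (b : Bool) : eB n (rest n i b) = 1 :=
  (expSum_of (0, true) (i.succ.succ, b)).trans (by rw [if_neg (by simp)]; rfl)
lemma eR_a0 (i : Fin (n + 1)) (b : Bool) : eR n i b (a0 n) = 1 :=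
  (expSum_of (i.succ, b) (0, false)).trans (by
    rw [if_neg]
    · rfl
    · intro h
      exact (Fin.succ_ne_zero i) (congrArg Prod.fst h).symm)
lemma eR_b0 (i : Fin (n + 1)) (b : Bool) : eR n i b (b0 n) = 1 :=
  (expSum_of (i.succ, b) (0, true)).trans (by
    rw [if_neg]
    · rfl
    · intro h
      exact (Fin.succ_ne_zero i) (congrArg Prod.fst h).symm)

/-- an endomorphism changing only `a_0, b_0` -/
lemma eR_endo (A0 B0 : SurfaceGroup (n + 2)) (h : PairRel A0 B0 (a1 n) (b1 n))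
    (i : Fin (n + 1)) (b : Bool) (hA : eR n i b A0 = 1) (hB : eR n i b B0 = 1)
    (y : SurfaceGroup (n + 2)) : eR n i b (endo A0 B0 (a1 n) (b1 n) h y) = eR n i b y := by
  have : (eR n i b).comp (endo A0 B0 (a1 n) (b1 n) h) = eR n i b := by
    apply hom_ext
    · rw [MonoidHom.comp_apply, endo_a0, hA, eR_a0]
    · rw [MonoidHom.comp_apply, endo_b0, hB, eR_b0]
    · rw [MonoidHom.comp_apply, endo_a1]
    · rw [MonoidHom.comp_apply, endo_b1]
    · intro j c
      rw [MonoidHom.comp_apply, endo_r]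
  exact DFunLike.congr_fun this y

lemma eA_u (k : ℤ) (y : SurfaceGroup (n + 2)) : eA n (uA n k y) = eA n y := by
  have h : (eA n).comp (uE n k) = eA n := by
    apply hom_ext
    all_goals simp only [MonoidHom.comp_apply, uE, endo_a0, endo_b0, endo_a1, endo_b1, endo_r,
      map_mul, map_zpow, eA_a0, eA_b0, eA_a1, eA_b1, eA_r, one_zpow, mul_one, implies_true]
  exact DFunLike.congr_fun h y

lemma eB_u (k : ℤ) (y : SurfaceGroup (n + 2)) : eB n (uA n k y) = eB n y * (eA n y) ^ k := by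
  have h : (eB n).comp (uE n k) = eB n * (zpowGroupHom k).comp (eA n) := by
    apply hom_ext
    all_goals simp only [MonoidHom.comp_apply, MonoidHom.mul_apply, uE, endo_a0, endo_b0, endo_a1,
      endo_b1, endo_r, map_mul, map_zpow, eA_a0, eA_b0, eA_a1, eA_b1, eA_r, one_zpow, mul_one,
      eB_a0, eB_b0, eB_a1, eB_b1, eB_r, zpowGroupHom_apply, implies_true]
  exact DFunLike.congr_fun h y

lemma eB_v (k : ℤ) (y : SurfaceGroup (n + 2)) : eB n (vA n k y) = eB n y := by
  have h : (eB n).comp (vE n k) = eB n := by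
    apply hom_ext
    all_goals simp only [MonoidHom.comp_apply, vE, endo_a0, endo_b0, endo_a1, endo_b1, endo_r,
      map_mul, map_zpow, eB_a0, eB_b0, eB_a1, eB_b1, eB_r, one_zpow, mul_one, implies_true]
  exact DFunLike.congr_fun h y

lemma eA_v (k : ℤ) (y : SurfaceGroup (n + 2)) : eA n (vA n k y) = eA n y * (eB n y) ^ k := by
  have h : (eA n).comp (vE n k) = eA n * (zpowGroupHom k).comp (eB n) := by
    apply hom_ext
    all_goals simp only [MonoidHom.comp_apply, MonoidHom.mul_apply, vE, endo_a0, endo_b0, endo_a1,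
      endo_b1, endo_r, map_mul, map_zpow, eA_a0, eA_b0, eA_a1, eA_b1, eA_r, one_zpow, mul_one,
      eB_a0, eB_b0, eB_a1, eB_b1, eB_r, zpowGroupHom_apply, one_mul, implies_true]
  exact DFunLike.congr_fun h y

lemma eR_u (k : ℤ) (i : Fin (n + 1)) (b : Bool) (y : SurfaceGroup (n + 2)) :
    eR n i b (uA n k y) = eR n i b y := by
  refine eR_endo _ _ (uE_rel n k) i b ?_ (eR_b0 i b) y
  rw [map_mul, map_zpow, eR_a0, eR_b0, one_zpow, one_mul]

lemma eR_v (k : ℤ) (i : Fin (n + 1)) (b : Bool) (y : SurfaceGroup (n + 2)) :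
    eR n i b (vA n k y) = eR n i b y := by
  refine eR_endo _ _ (vE_rel n k) i b (eR_a0 i b) ?_ y
  rw [map_mul, map_zpow, eR_a0, eR_b0, one_zpow, one_mul]

lemma inter_eq (x y : SurfaceGroup (n + 2)) :
    inter x y = ((eA n x).toAdd * (eB n y).toAdd - (eB n x).toAdd * (eA n y).toAdd) +
      ∑ i : Fin (n + 1), ((eR n i false x).toAdd * (eR n i true y).toAdd
      - (eR n i true x).toAdd * (eR n i false y).toAdd) := by
  simp only [inter, coord]
  rw [Fin.sum_univ_succ]

lemma u_mem (k : ℤ) : uA n k ∈ autPlus (n + 2) := by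
  intro x y
  rw [inter_eq, inter_eq]
  simp only [eA_u, eB_u, eR_u, toAdd_mul, toAdd_zpow, smul_eq_mul]
  ring

lemma v_mem (k : ℤ) : vA n k ∈ autPlus (n + 2) := by
  intro x y
  rw [inter_eq, inter_eq]
  simp only [eA_v, eB_v, eR_v, toAdd_mul, toAdd_zpow, smul_eq_mul]
  ring

/-- automorphisms acting trivially modulo the commutator subgroup -/
def torA (g : ℕ) : Subgroup (MulAut (SurfaceGroup g)) := (autQuot (gam g 2)).ker

instance (g : ℕ) : (torA g).Normal := by
  unfold torA
  infer_instance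

lemma mem_torA {g : ℕ} {φ : MulAut (SurfaceGroup g)} :
    φ ∈ torA g ↔ ∀ x, qm (SurfaceGroup g) 1 (φ x) = qm (SurfaceGroup g) 1 x := by
  constructor
  · intro h x
    rw [torA, MonoidHom.mem_ker] at h
    exact congrArg (fun θ : MulAut (SurfaceGroup g ⧸ gam g 2) => θ (x : SurfaceGroup g ⧸ gam g 2)) h
  · intro h
    rw [torA, MonoidHom.mem_ker]
    ext y
    induction y using QuotientGroup.induction_on with
    | H y => exact h y

lemma expSum_torA {g : ℕ} {φ : MulAut (SurfaceGroup g)} (h : φ ∈ torA g) (x : Gen g)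
    (y : SurfaceGroup g) : expSum x (φ y) = expSum x y := by
  have h1 := qm_eq.mp (mem_torA.mp h y)
  have h2 : (⊤ : Subgroup (SurfaceGroup g)).lowerCentralSeries 1 ≤
      (expSum x : SurfaceGroup g →* _).ker := by
    rw [Subgroup.lowerCentralSeries_succ, Subgroup.commutator_le]
    intro a _ b _
    rw [MonoidHom.mem_ker, map_commutatorElement, commutatorElement_eq_one_iff_mul_comm]
    exact mul_comm _ _
  have h3 := h2 h1
  rw [MonoidHom.mem_ker, map_mul, map_inv, mul_inv_eq_one] at h3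
  exact h3

lemma torA_le (g : ℕ) : torA g ≤ autPlus g := by
  intro φ h x y
  simp only [inter, coord, expSum_torA h]

lemma cA_mem : cA n ∈ torA (n + 2) := by
  rw [mem_torA]
  have h : (qm (SurfaceGroup (n + 2)) 1).comp (cEnd n 1) = qm (SurfaceGroup (n + 2)) 1 := by
    have hc : ∀ x y : SurfaceGroup (n + 2), qm (SurfaceGroup (n + 2)) 1 (x * y * x⁻¹) =
        qm (SurfaceGroup (n + 2)) 1 y := by
      intro x y
      rw [map_mul, map_mul, map_inv, mul_inv_eq_iff_eq_mul]
      exact lcs_central (j := 0) (Subgroup.mem_top x) y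
    apply hom_ext
    · rw [MonoidHom.comp_apply, cEnd, endo_a0, hc]
    · rw [MonoidHom.comp_apply, cEnd, endo_b0, hc]
    · rw [MonoidHom.comp_apply, cEnd, endo_a1]
    · rw [MonoidHom.comp_apply, cEnd, endo_b1]
    · intro i b
      rw [MonoidHom.comp_apply, cEnd, endo_r]
  exact fun x => DFunLike.congr_fun h x

lemma fA_mem : fA n ∈ torA (n + 2) :=
  (inferInstance : (torA (n + 2)).Normal).conj_mem _ cA_mem _

end Homology

section Main

variable (n N : ℕ)

/-- a free family in the Torelli group, at the level of automorphisms -/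
def rhoZ : FreeGroup (Fin N) →* MulAut (SurfaceGroup (n + 2)) :=
  FreeGroup.lift fun i => vA n (i : ℕ) * fA n * (vA n (i : ℕ))⁻¹

/-- a free family modulo the Torelli group, at the level of automorphisms -/
def rhoY : FreeGroup (Fin N) →* MulAut (SurfaceGroup (n + 2)) :=
  FreeGroup.lift fun i => vA n (i : ℕ) * uA n 4 * (vA n (i : ℕ))⁻¹

variable {n N}

lemma rhoZ_mem (w : FreeGroup (Fin N)) : rhoZ n N w ∈ torA (n + 2) := by
  have h : (rhoZ n N).range ≤ torA (n + 2) := by
    apply FreeGroup.range_lift_le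
    rintro _ ⟨i, rfl⟩
    exact (inferInstance : (torA (n + 2)).Normal).conj_mem _ fA_mem _
  exact h ⟨w, rfl⟩

lemma rhoY_mem (w : FreeGroup (Fin N)) : rhoY n N w ∈ autPlus (n + 2) := by
  have h : (rhoY n N).range ≤ autPlus (n + 2) := by
    apply FreeGroup.range_lift_le
    rintro _ ⟨i, rfl⟩
    exact Subgroup.mul_mem _ (Subgroup.mul_mem _ (v_mem _) (u_mem _)) (Subgroup.inv_mem _ (v_mem _))
  exact h ⟨w, rfl⟩

lemma rhoZ_type (w : FreeGroup (Fin N)) : (rhoZ n N w, zet N w) ∈ typeSub n := by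
  have h : ((rhoZ n N).prod (zet N)).range ≤ typeSub n := by
    have : (rhoZ n N).prod (zet N) = FreeGroup.lift fun i : Fin N =>
        (vA n (i : ℕ), Vq (i : ℕ)) * (fA n, Uq 4) * (vA n (i : ℕ), Vq (i : ℕ))⁻¹ := by
      ext i : 1
      rw [MonoidHom.prod_apply, rhoZ, zet, FreeGroup.lift_apply_of, FreeGroup.lift_apply_of,
        FreeGroup.lift_apply_of]
      rfl
    rw [this]
    apply FreeGroup.range_lift_le
    rintro _ ⟨i, rfl⟩
    exact Subgroup.mul_mem _ (Subgroup.mul_mem _ (type_v _) type_f) (Subgroup.inv_mem _ (type_v _))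
  exact h ⟨w, rfl⟩

/-- the homology class in the first handle -/
def AB (n : ℕ) (x : SurfaceGroup (n + 2)) : ℤ × ℤ := ((eA n x).toAdd, (eB n x).toAdd)

/-- pairs of an automorphism and a permutation intertwined by the homology -/
def actSub (n : ℕ) : Subgroup (MulAut (SurfaceGroup (n + 2)) × Equiv.Perm (ℤ × ℤ)) where
  carrier := {p | ∀ x, AB n (p.1 x) = p.2 (AB n x)}
  mul_mem' {p q} hp hq x := by
    change AB n (p.1 (q.1 x)) = p.2 (q.2 (AB n x))
    rw [hp, hq]
  one_mem' x := by simp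
  inv_mem' {p} hp x := by
    have h := hp (p.1⁻¹ x)
    rw [MulAut.apply_inv_self] at h
    change AB n (p.1⁻¹ x) = p.2⁻¹ (AB n x)
    rw [h]
    simp

lemma act_u (k : ℤ) : (uA n k, Uq k) ∈ actSub n := by
  intro x
  change AB n (uA n k x) = Uq k (AB n x)
  simp only [AB, eA_u, eB_u, Uq, toAdd_mul, toAdd_zpow, smul_eq_mul, Equiv.coe_fn_mk]

lemma act_v (k : ℤ) : (vA n k, Vq k) ∈ actSub n := by
  intro x
  change AB n (vA n k x) = Vq k (AB n x)
  simp only [AB, eA_v, eB_v, Vq, toAdd_mul, toAdd_zpow, smul_eq_mul, Equiv.coe_fn_mk]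

lemma rhoY_act (w : FreeGroup (Fin N)) : (rhoY n N w, zet N w) ∈ actSub n := by
  have h : ((rhoY n N).prod (zet N)).range ≤ actSub n := by
    have : (rhoY n N).prod (zet N) = FreeGroup.lift fun i : Fin N =>
        (vA n (i : ℕ), Vq (i : ℕ)) * (uA n 4, Uq 4) * (vA n (i : ℕ), Vq (i : ℕ))⁻¹ := by
      ext i : 1
      rw [MonoidHom.prod_apply, rhoY, zet, FreeGroup.lift_apply_of, FreeGroup.lift_apply_of,
        FreeGroup.lift_apply_of]
      rfl
    rw [this]
    apply FreeGroup.range_lift_le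
    rintro _ ⟨i, rfl⟩
    exact Subgroup.mul_mem _ (Subgroup.mul_mem _ (act_v _) (act_u _)) (Subgroup.inv_mem _ (act_v _))
  exact h ⟨w, rfl⟩

lemma toOut_mem {g : ℕ} {φ : MulAut (SurfaceGroup g)} (h : PreservesInter φ) :
    toOut (SurfaceGroup g) φ ∈ outPlus g := ⟨φ, h, rfl⟩

/-- The mapping class of an orientation-preserving automorphism. -/
def cls {g : ℕ} (φ : MulAut (SurfaceGroup g)) (h : PreservesInter φ) : MCG g :=
  (⟨toOut (SurfaceGroup g) φ, toOut_mem h⟩ : outPlus g)

lemma modIncl_cls {g : ℕ} (φ : MulAut (SurfaceGroup g)) (h : PreservesInter φ) :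
    modIncl g (cls φ h) = toOut _ φ := rfl

/-- the class homomorphism -/
def toMod (g : ℕ) : autPlus g →* MCG g :=
  MonoidHom.mk' (fun φ => cls φ.1 φ.2) (fun _ _ => rfl)

/-- The automorphism `v^i u⁴ v^{-i}`. -/
def yAut (n : ℕ) (i : ℕ) : MulAut (SurfaceGroup (n + 2)) := conjBy (vA n i) (uA n 4)

/-- The automorphism `v^i f v^{-i}`. -/
def zAut (n : ℕ) (i : ℕ) : MulAut (SurfaceGroup (n + 2)) := conjBy (vA n i) (fA n)

lemma yAut_mem (n i : ℕ) : PreservesInter (yAut n i) :=
  (autPlus (n + 2)).mul_mem ((autPlus (n + 2)).mul_mem (v_mem _) (u_mem _))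
    ((autPlus (n + 2)).inv_mem (v_mem _))

lemma zAut_mem (n i : ℕ) : PreservesInter (zAut n i) :=
  (autPlus (n + 2)).mul_mem ((autPlus (n + 2)).mul_mem (v_mem _) (torA_le _ fA_mem))
    ((autPlus (n + 2)).inv_mem (v_mem _))

/-- The mapping class of `v^i u⁴ v^{-i}`. -/
def yClass (n : ℕ) (i : ℕ) : MCG (n + 2) := cls (yAut n i) (yAut_mem n i)

/-- The mapping class of `v^i f v^{-i}`. -/
def zClass (n : ℕ) (i : ℕ) : MCG (n + 2) := cls (zAut n i) (zAut_mem n i)

lemma rhoZ_mem' (n N : ℕ) (w : FreeGroup (Fin N)) : rhoZ n N w ∈ autPlus (n + 2) :=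
  torA_le _ (rhoZ_mem w)

/-- the free family in the Torelli group -/
def famZ (n N : ℕ) : FreeGroup (Fin N) →* MCG (n + 2) :=
  (toMod (n + 2)).comp ((rhoZ n N).codRestrict (autPlus (n + 2)) (rhoZ_mem' n N))

/-- the family free modulo the Torelli group -/
def famY (n N : ℕ) : FreeGroup (Fin N) →* MCG (n + 2) :=
  (toMod (n + 2)).comp ((rhoY n N).codRestrict (autPlus (n + 2)) rhoY_mem)

lemma famZ_of (i : Fin N) : famZ n N (FreeGroup.of i) = zClass n i := by
  apply modIncl_injective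
  change toOut _ (rhoZ n N (FreeGroup.of i)) = toOut _ (zAut n i)
  rw [rhoZ, FreeGroup.lift_apply_of]
  rfl

lemma famY_of (i : Fin N) : famY n N (FreeGroup.of i) = yClass n i := by
  apply modIncl_injective
  change toOut _ (rhoY n N (FreeGroup.of i)) = toOut _ (yAut n i)
  rw [rhoY, FreeGroup.lift_apply_of]
  rfl

lemma famZ_mem (w : FreeGroup (Fin N)) : famZ n N w ∈ johnson (n + 2) 1 := by
  rw [mem_johnson_iff]
  exact ⟨rhoZ n N w, torA_le _ (rhoZ_mem w), rfl, mem_torA.mp (rhoZ_mem w)⟩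

lemma famZ_injective (hN : 2 ≤ N) : Function.Injective (famZ n N) := by
  rw [injective_iff_map_eq_one]
  intro w hw
  have h1 : toOut (SurfaceGroup (n + 2)) (rhoZ n N w) = 1 :=
    congrArg (modIncl (n + 2)) hw
  rw [toOut_eq_one] at h1
  obtain ⟨h, hh⟩ := h1
  have h2 := rhoZ_type (n := n) w
  rw [← hh] at h2
  have h3 := inner_type (zet_zero N w) h2
  rw [← map_mul] at h3
  have h4 := (injective_iff_map_eq_one (zet N)).mp (zet_injective hN) _ h3
  rw [← sq] at h4
  exact (pow_eq_one_iff_left (by norm_num)).mp h4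

lemma famY_injective (hN : 2 ≤ N) : Function.Injective
    ((QuotientGroup.mk' (johnson (n + 2) 1)).comp (famY n N)) := by
  rw [injective_iff_map_eq_one]
  intro w hw
  have h0 : famY n N w ∈ johnson (n + 2) 1 := (QuotientGroup.eq_one_iff _).mp hw
  rw [mem_johnson_iff] at h0
  obtain ⟨φ, -, h1, h2⟩ := h0
  have h3 : toOut (SurfaceGroup (n + 2)) φ = toOut _ (rhoY n N w) := h1
  rw [toOut_eq] at h3
  obtain ⟨h, hh⟩ := h3
  have h4 : rhoY n N w = φ * MulAut.conj h := by
    rw [hh]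
    group
  have h5 : ∀ x, AB n (rhoY n N w x) = AB n x := by
    intro x
    rw [h4]
    have hφ : φ ∈ torA (n + 2) := mem_torA.mpr h2
    simp only [AB, eA, eB, MulAut.mul_apply, expSum_torA hφ, MulAut.conj_apply, expSum_conj]
  have h6 : zet N w = 1 := by
    apply Equiv.ext
    rintro ⟨s, t⟩
    have h7 := rhoY_act (n := n) w (a0 n ^ s * b0 n ^ t)
    change AB n (rhoY n N w (a0 n ^ s * b0 n ^ t)) = zet N w (AB n (a0 n ^ s * b0 n ^ t)) at h7
    rw [h5] at h7
    have h8 : AB n (a0 n ^ s * b0 n ^ t) = (s, t) := by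
      simp only [AB, map_mul, map_zpow, eA_a0, eA_b0, eB_a0, eB_b0, one_zpow, mul_one, one_mul,
        toAdd_zpow, toAdd_ofAdd, smul_eq_mul]
    rw [h8] at h7
    exact h7.symm
  exact (injective_iff_map_eq_one (zet N)).mp (zet_injective hN) _ h6

end Main

end Pool.Agent.Hhelper67.Johnson
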