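import Pool.Agent.Hhelper67.Johnson.Free
import Pool.Agent.Hhelper67.Johnson.Balls

/-!
Densities of the Johnson filtration.
-/

namespace Pool.Agent.Hhelper67.Johnson

lemma lower_positive {g : ℕ} (hg : 2 ≤ g) (S : Finset (MCG g))
    (hS : Subgroup.closure (S : Set (MCG g)) = ⊤) :
    ∃ c : ℝ, 0 < c ∧ ∀ m : ℕ, 1 ≤ m →
      c ≤ lowerLogDensity S (johnson g m : Set (MCG g)) := by
  classical
  obtain ⟨n, rfl⟩ : ∃ n, g = n + 2 := ⟨g - 2, by omega⟩
  have hinj := famZ_injective (n := n) (N := 2) le_rfl
  -- lengths of the letters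
  have hlen : ∀ i : Fin 2, ∃ L, famZ n 2 (FreeGroup.of i) ∈ ball S L := by
    intro i
    have h1 : famZ n 2 (FreeGroup.of i) ∈ Subgroup.closure (S : Set (MCG (n + 2))) := by
      rw [hS]
      exact Subgroup.mem_top _
    have h2 : famZ n 2 (FreeGroup.of i) ∈ Submonoid.closure
        ((S : Set (MCG (n + 2))) ∪ (S : Set (MCG (n + 2)))⁻¹) := by
      rw [← Subgroup.closure_toSubmonoid]
      exact h1
    obtain ⟨l, hl, hl'⟩ := Submonoid.exists_list_of_mem_closure h2
    refine ⟨l.length, l, le_rfl, fun s hs => ?_, hl'⟩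
    rcases hl s hs with h | h
    · exact Or.inl h
    · exact Or.inr h
  choose L hL using hlen
  set L₀ := max (max (L 0) (L 1)) 1 with hL₀
  have hL0 : 0 < L₀ := by
    rw [hL₀]
    positivity
  have hmem : ∀ i : Fin 2, famZ n 2 (FreeGroup.of i) ∈ ball S L₀ := by
    intro i
    refine ball_mono ?_ (hL i)
    fin_cases i
    · exact (le_max_left _ _).trans (le_max_left _ _)
    · exact (le_max_right _ _).trans (le_max_left _ _)
  have hlog : 0 < Real.log 2 := Real.log_pos (by norm_num)
  set δ := Real.log 2 / 2 with hδ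
  have hδ0 : 0 < δ := by positivity
  set c₃ := Real.log (2 * S.card + 2) with hc₃
  have hc₃0 : 0 < c₃ := Real.log_pos (by
    have : (0 : ℝ) ≤ S.card := Nat.cast_nonneg _
    linarith)
  refine ⟨δ / L₀ / c₃, by positivity, ?_⟩
  intro m hm
  obtain ⟨k, rfl⟩ : ∃ k, m = k + 1 := ⟨m - 1, by omega⟩
  have hgood := good_johnson (g := n + 2) (ι := Fin 2) (by simp) (famZ n 2) famZ_mem k δ (by
    simp only [Fintype.card_fin, Nat.cast_ofNat]
    linarith)
  obtain ⟨C, hC⟩ := inter_growth S (famZ n 2) hinj hL0 hmem (johnson (n + 2) (k + 1)) hδ0.le hgood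
  apply le_lower S (johnson (n + 2) (k + 1)) (c₂ := C) (by positivity) hc₃0 hC
  intro r
  calc Real.log ((ball S r).ncard : ℝ) ≤ Real.log (((2 * S.card + 2 : ℕ) : ℝ) ^ r) := by
        apply Real.log_le_log
        · exact_mod_cast ncard_ball_pos S r
        · have h1 := ncard_ball_le S r
          have h2 : (2 * S.card + 1) ^ r ≤ (2 * S.card + 2) ^ r :=
            Nat.pow_le_pow_left (by omega) r
          exact_mod_cast h1.trans h2
    _ = c₃ * r := by
        rw [Real.log_pow, hc₃]
        push_cast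
        ring

open scoped Classical in
/-- The set `X ∪ {[v^i u⁴ v^{-i}] : i < M} ∪ {[v^i f v^{-i}] : i < N}` of mapping classes. -/
noncomputable def genSet (n : ℕ) (X : Finset (MCG (n + 2))) (M N : ℕ) : Finset (MCG (n + 2)) :=
  X ∪ (Finset.range M).image (yClass n) ∪ (Finset.range N).image (zClass n)

lemma mem_genSet {n : ℕ} {X : Finset (MCG (n + 2))} {M N : ℕ} {x : MCG (n + 2)} :
    x ∈ genSet n X M N ↔ x ∈ X ∨ (∃ i : Fin M, famY n M (FreeGroup.of i) = x) ∨
      ∃ i : Fin N, famZ n N (FreeGroup.of i) = x := by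
  classical
  simp only [genSet, Finset.mem_union, Finset.mem_image, Finset.mem_range, famY_of, famZ_of,
    or_assoc]
  constructor
  · rintro (h | ⟨i, hi, h⟩ | ⟨i, hi, h⟩)
    · exact Or.inl h
    · exact Or.inr (Or.inl ⟨⟨i, hi⟩, h⟩)
    · exact Or.inr (Or.inr ⟨⟨i, hi⟩, h⟩)
  · rintro (h | ⟨i, h⟩ | ⟨i, h⟩)
    · exact Or.inl h
    · exact Or.inr (Or.inl ⟨i, i.2, h⟩)
    · exact Or.inr (Or.inr ⟨i, i.2, h⟩)

lemma mem_genSet_X {n : ℕ} {X : Finset (MCG (n + 2))} {M N : ℕ} : X ⊆ genSet n X M N :=
  fun _ hx => mem_genSet.mpr (Or.inl hx)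

lemma mem_genSet_Y {n : ℕ} {X : Finset (MCG (n + 2))} {M N : ℕ} (i : Fin M) :
    famY n M (FreeGroup.of i) ∈ genSet n X M N :=
  mem_genSet.mpr (Or.inr (Or.inl ⟨i, rfl⟩))

lemma mem_genSet_Z {n : ℕ} {X : Finset (MCG (n + 2))} {M N : ℕ} (i : Fin N) :
    famZ n N (FreeGroup.of i) ∈ genSet n X M N :=
  mem_genSet.mpr (Or.inr (Or.inr ⟨i, rfl⟩))

lemma card_genSet {n : ℕ} {X : Finset (MCG (n + 2))} {M N : ℕ} :
    (genSet n X M N).card ≤ X.card + M + N := by
  classical
  have h1 : ((Finset.range M).image (yClass n)).card ≤ M :=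
    Finset.card_image_le.trans (by simp)
  have h2 : ((Finset.range N).image (zClass n)).card ≤ N :=
    Finset.card_image_le.trans (by simp)
  unfold genSet
  refine (Finset.card_union_le _ _).trans (Nat.add_le_add ?_ ?_)
  · refine (Finset.card_union_le _ _).trans (Nat.add_le_add le_rfl ?_)
    convert h1
  · convert h2

/-- lower bound for the special generating sets -/
lemma lower_genSet {n : ℕ} (X : Finset (MCG (n + 2))) {M N : ℕ} (hN : 2 ≤ N)
    {m : ℕ} (hm : 1 ≤ m) {δ : ℝ} (hδ0 : 0 < δ) (hδ : δ < Real.log N) {c₃ : ℝ} (hc₃ : 0 < c₃)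
    (hc : Real.log (2 * (X.card + M + N) + 1) ≤ c₃) :
    δ / c₃ ≤ lowerLogDensity (genSet n X M N) (johnson (n + 2) m : Set (MCG (n + 2))) := by
  classical
  obtain ⟨k, rfl⟩ : ∃ k, m = k + 1 := ⟨m - 1, by omega⟩
  have hgood := good_johnson (g := n + 2) (ι := Fin N) (by simpa using hN) (famZ n N) famZ_mem k δ
    (by simpa using hδ)
  have hmem : ∀ i : Fin N, famZ n N (FreeGroup.of i) ∈ ball (genSet n X M N) 1 := by
    intro i
    exact ⟨[_], le_rfl, by
      intro s hs
      rw [List.mem_singleton] at hs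
      subst hs
      exact Or.inl (mem_genSet_Z i), by simp⟩
  obtain ⟨C, hC⟩ := inter_growth (genSet n X M N) (famZ n N) (famZ_injective hN) Nat.one_pos hmem
    (johnson (n + 2) (k + 1)) hδ0.le hgood
  simp only [Nat.cast_one, div_one] at hC
  apply le_lower (genSet n X M N) (johnson (n + 2) (k + 1)) (c₂ := C) hδ0 hc₃ hC
  intro r
  have h0 := card_genSet (n := n) (X := X) (M := M) (N := N)
  calc Real.log ((ball (genSet n X M N) r).ncard : ℝ)
      ≤ Real.log (((2 * (X.card + M + N) + 1 : ℕ) : ℝ) ^ r) := by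
        apply Real.log_le_log
        · exact_mod_cast ncard_ball_pos _ r
        · have h1 := ncard_ball_le (genSet n X M N) r
          have h2 : (2 * (genSet n X M N).card + 1) ^ r ≤ (2 * (X.card + M + N) + 1) ^ r :=
            Nat.pow_le_pow_left (by omega) r
          exact_mod_cast h1.trans h2
    _ = Real.log (2 * (X.card + M + N) + 1) * r := by
        rw [Real.log_pow]
        push_cast
        ring
    _ ≤ c₃ * r := mul_le_mul_of_nonneg_right hc (Nat.cast_nonneg r)

/-- the signed alphabet for the special generating sets -/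
def bigAlph (n : ℕ) (X : Finset (MCG (n + 2))) (M N : ℕ) :
    ((Fin M × Bool) ⊕ (Option (X × Bool) ⊕ (Fin N × Bool))) → MCG (n + 2) :=
  Sum.elim (fun x => famY n M (FreeGroup.mk [x]))
    (Sum.elim (alph X) (fun x => famZ n N (FreeGroup.mk [x])))

lemma mem_of_le_johnson {g : ℕ} {m : ℕ} (hm : 1 ≤ m) : johnson g m ≤ johnson g 1 := by
  obtain ⟨k, rfl⟩ : ∃ k, m = k + 1 := ⟨m - 1, by omega⟩
  induction k with
  | zero => exact le_rfl
  | succ k ih => exact (johnson_antitone (k + 1)).trans (ih (by omega))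

/-- upper bound for the special generating sets -/
lemma upper_genSet {n : ℕ} (X : Finset (MCG (n + 2))) {M N : ℕ} (hM : 2 ≤ M)
    {m : ℕ} (hm : 1 ≤ m) {c₄ : ℝ}
    (hc : Real.log (2 * Real.sqrt (2 * M) + (2 * X.card + 1 + 2 * N)) ≤ c₄) :
    upperLogDensity (genSet n X M N) (johnson (n + 2) m : Set (MCG (n + 2))) ≤
      c₄ / Real.log M := by
  classical
  have hM1 : (1 : ℝ) < M := by exact_mod_cast hM
  have hne : Nonempty (Fin M) := ⟨⟨0, by omega⟩⟩
  have hlogM : 0 < Real.log M := Real.log_pos hM1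
  set S := genSet n X M N with hS
  set Λ : ℝ := 2 * Real.sqrt (2 * M) + (2 * X.card + 1 + 2 * N) with hΛ
  apply upper_le S (johnson (n + 2) m) hlogM
  · intro r
    set π := QuotientGroup.mk' (johnson (n + 2) 1) with hπ
    set u := bigAlph n X M N with hu
    have hsub : ball S r ∩ (johnson (n + 2) m : Set (MCG (n + 2))) ⊆
        (((prods u r).filter fun x => 1 * π x = 1 : Finset _) : Set (MCG (n + 2))) := by
      rintro x ⟨hx1, hx2⟩
      rw [Finset.mem_coe, Finset.mem_filter]
      constructor
      · refine ball_subset_prods S u ⟨Sum.inr (Sum.inl none), rfl⟩ ?_ r hx1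
        intro s hs
        rw [hS, mem_genSet] at hs
        rcases hs with hs | ⟨i, rfl⟩ | ⟨i, rfl⟩
        · exact ⟨⟨Sum.inr (Sum.inl (some (⟨s, hs⟩, true))), rfl⟩,
            ⟨Sum.inr (Sum.inl (some (⟨s, hs⟩, false))), rfl⟩⟩
        · refine ⟨⟨Sum.inl (i, true), rfl⟩, ⟨Sum.inl (i, false), ?_⟩⟩
          have : FreeGroup.mk [(i, false)] = (FreeGroup.of i)⁻¹ := rfl
          rw [hu, bigAlph, Sum.elim_inl, this, map_inv]
        · refine ⟨⟨Sum.inr (Sum.inr (i, true)), rfl⟩, ⟨Sum.inr (Sum.inr (i, false)), ?_⟩⟩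
          have : FreeGroup.mk [(i, false)] = (FreeGroup.of i)⁻¹ := rfl
          rw [hu, bigAlph, Sum.elim_inr, Sum.elim_inr, this, map_inv]
      · rw [one_mul]
        exact (QuotientGroup.eq_one_iff _).mpr (mem_of_le_johnson hm hx2)
    have h1 : ((ball S r ∩ (johnson (n + 2) m : Set (MCG (n + 2)))).ncard : ℝ) ≤ Λ ^ r := by
      calc ((ball S r ∩ (johnson (n + 2) m : Set (MCG (n + 2)))).ncard : ℝ)
          ≤ (((prods u r).filter fun x => 1 * π x = 1).card : ℝ) := by
            have := Set.ncard_le_ncard hsub (Finset.finite_toSet _)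
            rw [Set.ncard_coe_finset] at this
            exact_mod_cast this
        _ ≤ cw (fun a => π (u a)) r 1 := card_prods_le π u r 1
        _ = cw (Sum.elim (fun x : Fin M × Bool => (π.comp (famY n M)) (FreeGroup.mk [x]))
              (fun b => π (Sum.elim (alph X) (fun x => famZ n N (FreeGroup.mk [x])) b))) r 1 := by
            congr 1
            funext a
            rcases a with a | a
            · rfl
            · rfl
        _ ≤ (2 * Real.sqrt (2 * Fintype.card (Fin M)) +
              Fintype.card (Option (X × Bool) ⊕ (Fin N × Bool))) ^ r :=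
            cw_bound _ (famY_injective hM) _ r
        _ = Λ ^ r := by
            rw [hΛ]
            congr 2
            · simp
            · simp only [Fintype.card_sum, Fintype.card_option, Fintype.card_prod,
                Fintype.card_coe, Fintype.card_bool, Fintype.card_fin]
              push_cast
              ring
    calc Real.log ((ball S r ∩ (johnson (n + 2) m : Set (MCG (n + 2)))).ncard : ℝ)
        ≤ Real.log (Λ ^ r) := by
          apply Real.log_le_log _ h1
          exact_mod_cast ncard_inter_pos S _ r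
      _ = r * Real.log Λ := by rw [Real.log_pow]
      _ ≤ c₄ * r := by
          rw [mul_comm]
          exact mul_le_mul_of_nonneg_right hc (Nat.cast_nonneg r)
  · intro r
    have h1 := ncard_ball_ge S (famY n M)
      (by
        have := famY_injective (n := n) hM
        rw [MonoidHom.coe_comp] at this
        exact this.of_comp)
      (fun i => mem_genSet_Y i) r
    rw [Fintype.card_fin] at h1
    calc Real.log M * r = Real.log ((M : ℝ) ^ r) := by rw [Real.log_pow, mul_comm]
      _ ≤ Real.log ((ball S r).ncard : ℝ) := by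
          apply Real.log_le_log
          · positivity
          · exact_mod_cast h1

/-- both bounds, for `N = ⌈M^t⌉` -/
lemma density_bounds {n : ℕ} (X : Finset (MCG (n + 2))) {M : ℕ} (hM : 2 ≤ M) {t : ℝ}
    (ht : 1 / 2 ≤ t) (ht1 : t ≤ 1) {m : ℕ} (hm : 1 ≤ m) :
    t - (1 + Real.log (2 * X.card + 8)) / Real.log M ≤
      lowerLogDensity (genSet n X M ⌈(M : ℝ) ^ t⌉₊) (johnson (n + 2) m : Set (MCG (n + 2))) ∧
    upperLogDensity (genSet n X M ⌈(M : ℝ) ^ t⌉₊) (johnson (n + 2) m : Set (MCG (n + 2))) ≤
      t + Real.log (2 * X.card + 8) / Real.log M := by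
  set N := ⌈(M : ℝ) ^ t⌉₊ with hN
  have hM0 : (0 : ℝ) < M := by positivity
  have hM1 : (1 : ℝ) < M := by exact_mod_cast hM
  have hlogM : 0 < Real.log M := Real.log_pos hM1
  have hMt1 : 1 < (M : ℝ) ^ t := Real.one_lt_rpow hM1 (by linarith)
  have hMtM : (M : ℝ) ^ t ≤ M := by
    calc (M : ℝ) ^ t ≤ (M : ℝ) ^ (1 : ℝ) := Real.rpow_le_rpow_of_exponent_le hM1.le ht1
      _ = M := Real.rpow_one _
  have hNge : (M : ℝ) ^ t ≤ N := Nat.le_ceil _
  have hNle : (N : ℝ) < (M : ℝ) ^ t + 1 := Nat.ceil_lt_add_one (by positivity)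
  have hN2 : 2 ≤ N := by
    have : (1 : ℝ) < N := hMt1.trans_le hNge
    exact_mod_cast this
  have hX0 : (0 : ℝ) ≤ X.card := Nat.cast_nonneg _
  set C : ℝ := 2 * X.card + 8 with hC
  have hC0 : 0 < C := by positivity
  have hC1 : 1 < C := by linarith
  have hlogC : 0 < Real.log C := Real.log_pos hC1
  constructor
  · -- lower bound
    have hlogN : t * Real.log M ≤ Real.log N := by
      rw [← Real.log_rpow hM0]
      exact Real.log_le_log (by positivity) hNge
    have hsize : Real.log (2 * (X.card + M + N) + 1) ≤ Real.log C + Real.log M := by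
      rw [← Real.log_mul hC0.ne' hM0.ne']
      apply Real.log_le_log (by positivity)
      rw [hC]
      nlinarith
    rcases le_or_gt (t * Real.log M - 1) 0 with hneg | hpos
    · have h0 : t - (1 + Real.log C) / Real.log M ≤ 0 := by
        have : t ≤ (1 + Real.log C) / Real.log M := by
          rw [le_div_iff₀ hlogM]
          linarith
        linarith
      refine h0.trans ?_
      classical
      unfold lowerLogDensity
      apply Filter.le_liminf_of_le
      · refine Filter.IsBoundedUnder.isCoboundedUnder_ge ⟨1, ?_⟩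
        exact Filter.eventually_map.mpr (Filter.Eventually.of_forall
          fun r => logRatio_le_one _ _ r)
      · exact Filter.Eventually.of_forall fun r => logRatio_nonneg _ _ r
    · have h1 := lower_genSet (n := n) X (M := M) (N := N) hN2 hm (δ := t * Real.log M - 1) hpos
        (by linarith) (c₃ := Real.log C + Real.log M) (by positivity) hsize
      refine le_trans ?_ h1
      rw [le_div_iff₀ (by positivity)]
      have h2 : (t - (1 + Real.log C) / Real.log M) * (Real.log C + Real.log M) =
          t * Real.log M - (1 + Real.log C) + t * Real.log C -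
            (1 + Real.log C) * Real.log C / Real.log M := by
        field_simp
        ring
      rw [h2]
      have h3 : 0 ≤ (1 + Real.log C) * Real.log C / Real.log M := by positivity
      nlinarith
  · -- upper bound
    have hsize : Real.log (2 * Real.sqrt (2 * M) + (2 * X.card + 1 + 2 * N)) ≤
        Real.log C + t * Real.log M := by
      rw [← Real.log_rpow hM0, ← Real.log_mul hC0.ne' (by positivity)]
      apply Real.log_le_log (by positivity)
      have h1 : Real.sqrt (2 * M) ≤ 3 / 2 * (M : ℝ) ^ t := by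
        rw [Real.sqrt_mul (by norm_num), Real.sqrt_eq_rpow (M : ℝ)]
        have h2 : Real.sqrt 2 ≤ 3 / 2 := by
          rw [Real.sqrt_le_left (by norm_num)]
          norm_num
        have h3 : (M : ℝ) ^ (1 / 2 : ℝ) ≤ (M : ℝ) ^ t :=
          Real.rpow_le_rpow_of_exponent_le hM1.le ht
        exact mul_le_mul h2 h3 (by positivity) (by norm_num)
      rw [hC]
      nlinarith
    have h1 := upper_genSet (n := n) X (M := M) (N := N) hM hm hsize
    refine h1.trans (le_of_eq ?_)
    field_simp
    ring

end Pool.Agent.Hhelper67.Johnson
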